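import Mathlib

/-! # Truncation of a face: the closed list of the truncated polytope -/

set_option autoImplicit false

noncomputable section

open scoped Classical

namespace Pool.Agent.LibTR40

open List

variable {Q : Type}

def io (A : Set Q) : Set (Option Q) := some '' A

def cut (A : Set Q) (i : Q) : Set (Option Q) := insert none (some '' (A \ {i}))

/-- the tight sets of the truncated polytope that come from `A` -/
def new (σ : Set Q) (A : Set Q) : Set (Set (Option Q)) :=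
  {D | (¬ σ ⊆ A ∧ D = io A) ∨ (σ ⊆ A ∧ ∃ i ∈ σ, D = cut A i)}

/-- one step of the graph -/
def St {X : Type} (A B : Set X) : Prop := A ≠ B ∧ ∃ q ∈ A, A \ {q} ⊆ B

theorem none_io (A : Set Q) : none ∉ io A := by
  rintro ⟨q, -, hq⟩
  cases hq

theorem some_io {A : Set Q} {q : Q} : some q ∈ io A ↔ q ∈ A := by
  constructor
  · rintro ⟨p, hp, hpq⟩
    cases hpq
    exact hp
  · intro h
    exact ⟨q, h, rfl⟩

theorem none_cut (A : Set Q) (i : Q) : none ∈ cut A i := Set.mem_insert _ _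

theorem some_cut {A : Set Q} {i q : Q} : some q ∈ cut A i ↔ q ∈ A ∧ q ≠ i := by
  unfold cut
  rw [Set.mem_insert_iff]
  constructor
  · rintro (h | ⟨p, hp, hpq⟩)
    · cases h
    · cases hpq
      exact hp
  · intro h
    exact Or.inr ⟨q, h, rfl⟩

theorem io_inj {A B : Set Q} (h : io A = io B) : A = B := by
  ext q
  rw [← some_io, h, some_io]

theorem cut_inj {A : Set Q} {i j : Q} (hi : i ∈ A) (h : cut A i = cut A j) : i = j := by
  by_contra hne
  have h1 : some i ∈ cut A j := some_cut.2 ⟨hi, hne⟩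
  rw [← h, some_cut] at h1
  exact h1.2 rfl

theorem cut_inj' {σ A B : Set Q} {i j : Q} (hA : σ ⊆ A) (hB : σ ⊆ B) (hi : i ∈ σ) (hj : j ∈ σ)
    (h : cut A i = cut B j) : A = B := by
  have hij : i = j := by
    by_contra hne
    have h1 : some i ∈ cut B j := some_cut.2 ⟨hB hi, hne⟩
    rw [← h, some_cut] at h1
    exact h1.2 rfl
  subst hij
  ext q
  by_cases hq : q = i
  · rw [hq]
    exact ⟨fun _ => hB hi, fun _ => hA hi⟩
  · have h1 : some q ∈ cut A i ↔ some q ∈ cut B i := by rw [h]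
    rw [some_cut, some_cut] at h1
    exact ⟨fun h2 => (h1.1 ⟨h2, hq⟩).1, fun h2 => (h1.2 ⟨h2, hq⟩).1⟩

theorem new_disj {σ A B : Set Q} {D : Set (Option Q)} (hA : D ∈ new σ A) (hB : D ∈ new σ B) : A = B := by
  rcases hA with ⟨_, rfl⟩ | ⟨h1, i, hi, rfl⟩
  · rcases hB with ⟨_, h⟩ | ⟨_, j, _, h⟩
    · exact io_inj h
    · exact absurd (h ▸ none_cut B j) (none_io A)
  · rcases hB with ⟨_, h⟩ | ⟨h2, j, hj, h⟩
    · exact absurd (h ▸ none_cut A i) (none_io B)
    · exact cut_inj' h1 h2 hi hj h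

/-! ## steps -/

theorem st_io_io {A B : Set Q} (h : St A B) : St (io A) (io B) := by
  obtain ⟨h1, q, hq, h2⟩ := h
  refine ⟨fun h3 => h1 (io_inj h3), some q, some_io.2 hq, ?_⟩
  rintro x ⟨⟨p, hp, rfl⟩, hx⟩
  exact some_io.2 (h2 ⟨hp, fun h3 => hx (by rw [Set.mem_singleton_iff] at h3 ⊢; rw [h3])⟩)

theorem st_cut_io {A B : Set Q} {j : Q} (h : A \ {j} ⊆ B) : St (cut A j) (io B) := by
  refine ⟨fun h3 => none_io B (h3 ▸ none_cut A j), none, none_cut A j, ?_⟩
  rintro x ⟨hx, hx'⟩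
  rcases x with _ | p
  · exact absurd rfl hx'
  · rw [some_cut] at hx
    exact some_io.2 (h ⟨hx.1, hx.2⟩)

theorem st_io_cut {A C : Set Q} {k : Q} (hk : k ∈ C) (hCA : ¬ C ⊆ A) (h : C \ {k} ⊆ A) (hAC : St A C) :
    St (io A) (cut C k) := by
  obtain ⟨_, q, hq, h2⟩ := hAC
  have hkA : k ∉ A := by
    intro h3
    refine hCA fun p hp => ?_
    by_cases h4 : p = k
    · rw [h4]; exact h3
    · exact h ⟨hp, h4⟩
  refine ⟨fun h3 => none_io A (h3 ▸ none_cut C k), some q, some_io.2 hq, ?_⟩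
  rintro x ⟨⟨p, hp, rfl⟩, hx⟩
  rw [some_cut]
  refine ⟨h2 ⟨hp, fun h3 => hx (by rw [Set.mem_singleton_iff] at h3 ⊢; rw [h3])⟩, ?_⟩
  rintro rfl
  exact hkA hp

theorem st_cut_cut_same {B : Set Q} {l l' : Q} (hl : l ∈ B) (hl' : l' ∈ B) (hne : l ≠ l') :
    St (cut B l) (cut B l') := by
  refine ⟨fun h => hne (cut_inj hl h), some l', some_cut.2 ⟨hl', fun h => hne h.symm⟩, ?_⟩
  rintro x ⟨hx, hx'⟩
  rcases x with _ | p
  · exact none_cut _ _
  · rw [some_cut] at hx ⊢
    exact ⟨hx.1, fun h => hx' (by rw [h]; rfl)⟩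

theorem st_cut_cut {σ B C : Set Q} {l : Q} (hB : σ ⊆ B) (hC : σ ⊆ C) (hl : l ∈ σ) (hBC : ¬ B ⊆ C)
    (h : St B C) : St (cut B l) (cut C l) := by
  obtain ⟨h1, q, hq, h2⟩ := h
  have hqC : q ∉ C := by
    intro h3
    refine hBC fun p hp => ?_
    by_cases h4 : p = q
    · rw [h4]; exact h3
    · exact h2 ⟨hp, h4⟩
  have hql : q ≠ l := fun h3 => hqC (h3 ▸ hC hl)
  refine ⟨fun h3 => h1 (cut_inj' hB hC hl hl h3), some q, some_cut.2 ⟨hq, hql⟩, ?_⟩
  rintro x ⟨hx, hx'⟩
  rcases x with _ | p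
  · exact none_cut _ _
  · rw [some_cut] at hx ⊢
    exact ⟨h2 ⟨hx.1, fun h3 => hx' (by rw [Set.mem_singleton_iff] at h3 ⊢; rw [h3])⟩, hx.2⟩

/-! ## segments and good lists -/

/-- the list `D :: N` runs through the new sets of the members of `LL`, and its last set has a step to `W` -/
def Gd (σ : Set Q) (D : Set (Option Q)) (LL : List (Set Q)) (W : Set (Option Q)) : Prop :=
  ∃ N, (D :: (N ++ [W])).IsChain St ∧ (D :: N).Nodup ∧ ∀ D', D' ∈ D :: N ↔ ∃ A ∈ LL, D' ∈ new σ A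

/-- the list `D :: mid = pre ++ [y]` runs through the new sets of `B` -/
def Sg (σ : Set Q) (D : Set (Option Q)) (B : Set Q) (y : Set (Option Q)) : Prop :=
  ∃ mid pre, D :: mid = pre ++ [y] ∧ (D :: mid).IsChain St ∧ (D :: mid).Nodup ∧
    ∀ D', D' ∈ D :: mid ↔ D' ∈ new σ B

theorem gd_end {σ B : Set Q} {D y W : Set (Option Q)} (h : Sg σ D B y) (hy : St y W) : Gd σ D [B] W := by
  obtain ⟨mid, pre, h1, h2, h3, h4⟩ := h
  refine ⟨mid, ?_, h3, fun D' => ?_⟩
  · rw [← List.cons_append, h1, List.append_assoc, List.singleton_append, List.isChain_append_cons_cons]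
    rw [h1] at h2
    exact ⟨h2, hy, List.isChain_singleton _⟩
  · rw [h4]
    simp

theorem gd_join {σ B : Set Q} {LL : List (Set Q)} {D y z W : Set (Option Q)} (h : Sg σ D B y) (hy : St y z)
    (hG : Gd σ z LL W) (hB : B ∉ LL) : Gd σ D (B :: LL) W := by
  obtain ⟨mid, pre, h1, h2, h3, h4⟩ := h
  obtain ⟨N, g1, g2, g3⟩ := hG
  refine ⟨mid ++ (z :: N), ?_, ?_, fun D' => ?_⟩
  · have e : D :: (mid ++ (z :: N) ++ [W]) = pre ++ y :: z :: (N ++ [W]) := by
      have e1 : D :: (mid ++ (z :: N) ++ [W]) = (D :: mid) ++ (z :: (N ++ [W])) := by simp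
      rw [e1, h1]
      simp
    rw [e, List.isChain_append_cons_cons]
    rw [h1] at h2
    exact ⟨h2, hy, g1⟩
  · rw [← List.cons_append, List.nodup_append]
    refine ⟨h3, g2, ?_⟩
    intro x hx x' hx' he
    subst he
    obtain ⟨A, hA, hxA⟩ := (g3 x).1 hx'
    have := new_disj ((h4 x).1 hx) hxA
    exact hB (this ▸ hA)
  · rw [← List.cons_append, List.mem_append, h4, g3]
    simp

theorem sg_one {σ B : Set Q} (hB : ¬ σ ⊆ B) : Sg σ (io B) B (io B) := by
  refine ⟨[], [], rfl, List.isChain_singleton _, List.nodup_singleton _, fun D' => ?_⟩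
  rw [List.mem_singleton]
  constructor
  · intro h
    exact Or.inl ⟨hB, h⟩
  · rintro (⟨_, h⟩ | ⟨h, _⟩)
    · exact h
    · exact absurd h hB

theorem sg_cut {σ : Finset Q} {B : Set Q} (hB : (σ : Set Q) ⊆ B) {k l : Q} (hk : k ∈ σ) (hl : l ∈ σ)
    (hkl : k ≠ l) : Sg (σ : Set Q) (cut B k) B (cut B l) := by
  obtain ⟨R, hR⟩ : ∃ R : List Q, R = ((σ.erase k).erase l).toList := ⟨_, rfl⟩
  have hRm : ∀ i, i ∈ R ↔ i ∈ σ ∧ i ≠ k ∧ i ≠ l := by
    intro i
    rw [hR, Finset.mem_toList, Finset.mem_erase, Finset.mem_erase]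
    tauto
  have hRn : R.Nodup := by
    rw [hR]
    exact Finset.nodup_toList _
  have hnd : (k :: (R ++ [l])).Nodup := by
    rw [List.nodup_cons]
    refine ⟨?_, ?_⟩
    · rw [List.mem_append, List.mem_singleton]
      rintro (h | h)
      · exact ((hRm k).1 h).2.1 rfl
      · exact hkl h
    · rw [List.nodup_append]
      refine ⟨hRn, List.nodup_singleton _, ?_⟩
      intro x hx y hy hxy
      rw [List.mem_singleton] at hy
      subst hxy
      exact ((hRm x).1 hx).2.2 hy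
  have hmem : ∀ i, i ∈ k :: (R ++ [l]) ↔ i ∈ σ := by
    intro i
    rw [List.mem_cons, List.mem_append, List.mem_singleton, hRm]
    constructor
    · rintro (h | h | h)
      · rw [h]; exact hk
      · exact h.1
      · rw [h]; exact hl
    · intro h
      by_cases h1 : i = k
      · exact Or.inl h1
      by_cases h2 : i = l
      · exact Or.inr (Or.inr h2)
      · exact Or.inr (Or.inl ⟨h, h1, h2⟩)
  have hinj : ∀ i ∈ k :: (R ++ [l]), ∀ j ∈ k :: (R ++ [l]), cut B i = cut B j → i = j := by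
    intro i hi j _ h
    exact cut_inj (hB ((hmem i).1 hi)) h
  refine ⟨(R ++ [l]).map (cut B), (k :: R).map (cut B), by simp, ?_, ?_, ?_⟩
  · have h1 : ((k :: (R ++ [l])).map (cut B)).Pairwise St := by
      rw [List.pairwise_map]
      refine List.Pairwise.imp_of_mem ?_ hnd
      intro i j hi hj hij
      exact st_cut_cut_same (hB ((hmem i).1 hi)) (hB ((hmem j).1 hj)) hij
    exact h1.isChain
  · have h1 : ((k :: (R ++ [l])).map (cut B)).Nodup := List.Nodup.map_on hinj hnd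
    exact h1
  · intro D'
    have h1 : D' ∈ (k :: (R ++ [l])).map (cut B) ↔ D' ∈ new (σ : Set Q) B := by
      rw [List.mem_map]
      constructor
      · rintro ⟨i, hi, rfl⟩
        exact Or.inr ⟨hB, i, (hmem i).1 hi, rfl⟩
      · rintro (⟨h, _⟩ | ⟨_, i, hi, rfl⟩)
        · exact absurd hB h
        · exact ⟨i, (hmem i).2 hi, rfl⟩
    exact h1

/-- steps in both directions -/
def SS (A B : Set Q) : Prop := St A B ∧ St B A

theorem expand {𝓣 : Set (Set Q)} (h_inj : ∀ A ∈ 𝓣, ∀ B ∈ 𝓣, A ⊆ B → A = B)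
    (h_u : ∀ C ∈ 𝓣, ∀ A ∈ 𝓣, ∀ B ∈ 𝓣, ∀ k ∈ C, A ≠ C → B ≠ C → C \ {k} ⊆ A → C \ {k} ⊆ B → A = B)
    {σ : Finset Q} (hσ : 3 ≤ σ.card) {Z : Set Q} (hZ : Z ∈ 𝓣) (hZσ : ¬ (σ : Set Q) ⊆ Z) :
    ∀ (L : List (Set Q)) (B : Set Q), (∀ A ∈ B :: L, A ∈ 𝓣) → (B :: (L ++ [Z])).Nodup →
      (B :: (L ++ [Z])).IsChain SS →
      (¬ (σ : Set Q) ⊆ B → Gd (σ : Set Q) (io B) (B :: L) (io Z)) ∧
      ((σ : Set Q) ⊆ B → ∀ k ∈ σ, (∀ C, (L ++ [Z]).head? = some C → ¬ (B \ {k} ⊆ C)) →
        Gd (σ : Set Q) (cut B k) (B :: L) (io Z)) := by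
  -- the exit colour
  have hexit : ∀ B C : Set Q, (σ : Set Q) ⊆ B → ¬ (σ : Set Q) ⊆ C → St B C → ∃ j ∈ σ, B \ {j} ⊆ C := by
    intro B C hB hC hs
    obtain ⟨_, q, hq, h2⟩ := hs
    refine ⟨q, ?_, h2⟩
    by_contra hn
    exact hC fun p hp => h2 ⟨hB hp, fun h3 => hn (h3 ▸ hp)⟩
  intro L
  induction L with
  | nil =>
    intro B hT hnd hch
    rw [List.nil_append, List.isChain_cons_cons] at hch
    obtain ⟨⟨hs1, hs2⟩, -⟩ := hch
    constructor
    · intro hB
      exact gd_end (sg_one hB) (st_io_io hs1)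
    · intro hB k hk hbad
      obtain ⟨j, hj, hjZ⟩ := hexit B Z hB hZσ hs1
      have hkj : k ≠ j := by
        rintro rfl
        exact hbad Z rfl hjZ
      exact gd_end (sg_cut hB hk hj hkj) (st_cut_io hjZ)
  | cons C L' ih =>
    intro B hT hnd hch
    rw [List.cons_append, List.isChain_cons_cons] at hch
    obtain ⟨⟨hs1, hs2⟩, hch'⟩ := hch
    rw [List.cons_append] at hnd
    have hnd' := (List.nodup_cons.1 hnd).2
    have hBn := (List.nodup_cons.1 hnd).1
    have hBT : B ∈ 𝓣 := hT B (by simp)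
    have hCT : C ∈ 𝓣 := hT C (by simp)
    have hBL : B ∉ C :: L' := by
      intro h
      apply hBn
      rw [List.mem_cons] at h ⊢
      rcases h with h | h
      · exact Or.inl h
      · exact Or.inr (List.mem_append_left _ h)
    have hBC : B ≠ C := hs1.1
    obtain ⟨ih1, ih2⟩ := ih C (fun A hA => hT A (List.mem_cons_of_mem _ hA)) hnd' hch'
    -- the successor of `C`
    obtain ⟨C', hC'⟩ : ∃ C', (L' ++ [Z]).head? = some C' := by
      rcases L' with _ | ⟨a, t⟩
      · exact ⟨Z, rfl⟩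
      · exact ⟨a, rfl⟩
    have hC'm : C' ∈ L' ++ [Z] := List.mem_of_mem_head? hC'
    have hC'T : C' ∈ 𝓣 := by
      rcases List.mem_append.1 hC'm with h | h
      · exact hT C' (List.mem_cons_of_mem _ (List.mem_cons_of_mem _ h))
      · rw [List.mem_singleton] at h
        rw [h]
        exact hZ
    have hCC' : C' ≠ C := by
      rintro rfl
      exact (List.nodup_cons.1 hnd').1 hC'm
    have hBC' : B ≠ C' := by
      rintro rfl
      exact hBn (List.mem_cons_of_mem _ hC'm)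
    constructor
    · intro hB
      by_cases hC : (σ : Set Q) ⊆ C
      · obtain ⟨k, hk, hkB⟩ := hexit C B hC hB hs2
        have hbad : ∀ C'', (L' ++ [Z]).head? = some C'' → ¬ (C \ {k} ⊆ C'') := by
          intro C'' h1 h2
          rw [hC'] at h1
          injection h1 with h1
          subst h1
          exact hBC' (h_u C hCT B hBT C' hC'T k (hC hk) hBC hCC' hkB h2)
        exact gd_join (sg_one hB) (st_io_cut (hC hk) (fun h => hBC (h_inj C hCT B hBT h).symm) hkB hs1)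
          (ih2 hC k hk hbad) hBL
      · exact gd_join (sg_one hB) (st_io_io hs1) (ih1 hC) hBL
    · intro hB k hk hbad
      by_cases hC : (σ : Set Q) ⊆ C
      · -- choose the colour `l`
        obtain ⟨l, hl, hlk, hlbad⟩ : ∃ l ∈ σ, k ≠ l ∧ ¬ (C \ {l} ⊆ C') := by
          by_contra hcon
          push Not at hcon
          have h1 : 2 ≤ (σ.erase k).card := by
            rw [Finset.card_erase_of_mem hk]
            omega
          obtain ⟨l, hl, l', hl', hll'⟩ := Finset.one_lt_card.1 (by omega : 1 < (σ.erase k).card)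
          rw [Finset.mem_erase] at hl hl'
          have g1 := hcon l hl.2 (fun h => hl.1 h.symm)
          have g2 := hcon l' hl'.2 (fun h => hl'.1 h.symm)
          have g3 : C ⊆ C' := by
            intro p hp
            by_cases hpl : p = l
            · exact g2 ⟨hp, fun h => hll' (hpl ▸ h)⟩
            · exact g1 ⟨hp, hpl⟩
          exact hCC' (h_inj C hCT C' hC'T g3).symm
        have hbad' : ∀ C'', (L' ++ [Z]).head? = some C'' → ¬ (C \ {l} ⊆ C'') := by
          intro C'' h1 h2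
          rw [hC'] at h1
          injection h1 with h1
          subst h1
          exact hlbad h2
        exact gd_join (sg_cut hB hk hl hlk)
          (st_cut_cut hB hC hl (fun h => hBC (h_inj B hBT C hCT h)) hs1) (ih2 hC l hl hbad') hBL
      · obtain ⟨j, hj, hjC⟩ := hexit B C hB hC hs1
        have hkj : k ≠ j := by
          rintro rfl
          exact hbad C rfl hjC
        exact gd_join (sg_cut hB hk hj hkj) (st_cut_io hjC) (ih1 hC) hBL

/-- the closed list of the truncated polytope -/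
theorem closed {𝓣 : Set (Set Q)} (h_inj : ∀ A ∈ 𝓣, ∀ B ∈ 𝓣, A ⊆ B → A = B)
    (h_u : ∀ C ∈ 𝓣, ∀ A ∈ 𝓣, ∀ B ∈ 𝓣, ∀ k ∈ C, A ≠ C → B ≠ C → C \ {k} ⊆ A → C \ {k} ⊆ B → A = B)
    {σ : Finset Q} (hσ : 3 ≤ σ.card) {v : Set Q} {M : List (Set Q)} (hT : ∀ A ∈ v :: M, A ∈ 𝓣)
    (hv : ¬ (σ : Set Q) ⊆ v) (hnd : (v :: M).Nodup) (hch : (v :: (M ++ [v])).IsChain SS)
    (h3 : 3 ≤ (v :: M).length) :
    ∃ N : List (Set (Option Q)), (io v :: N).Nodup ∧ (io v :: (N ++ [io v])).IsChain St ∧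
      ∀ D, D ∈ io v :: N ↔ ∃ A ∈ v :: M, D ∈ new (σ : Set Q) A := by
  rcases M with _ | ⟨C, _ | ⟨C', L⟩⟩
  · simp at h3
  · simp at h3
  have hvT : v ∈ 𝓣 := hT v (by simp)
  have hCT : C ∈ 𝓣 := hT C (by simp)
  have hC'T : C' ∈ 𝓣 := hT C' (by simp)
  rw [List.cons_append, List.isChain_cons_cons] at hch
  obtain ⟨⟨hs1, hs2⟩, hch'⟩ := hch
  have hvM := (List.nodup_cons.1 hnd).1
  have hM := (List.nodup_cons.1 hnd).2
  have hnd' : (C :: ((C' :: L) ++ [v])).Nodup := by
    rw [← List.cons_append, List.nodup_append]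
    refine ⟨hM, List.nodup_singleton _, ?_⟩
    intro x hx y hy hxy
    rw [List.mem_singleton] at hy
    subst hxy
    exact hvM (hy ▸ hx)
  have hex := expand h_inj h_u hσ hvT hv (C' :: L) C
    (fun A hA => hT A (List.mem_cons_of_mem _ hA)) hnd' hch'
  have key : Gd (σ : Set Q) (io v) (v :: C :: C' :: L) (io v) := by
    by_cases hC : (σ : Set Q) ⊆ C
    · obtain ⟨_, q, hq, h2⟩ := hs2
      have hqσ : q ∈ σ := by
        by_contra hn
        exact hv fun p hp => h2 ⟨hC hp, fun h3 => hn (h3 ▸ hp)⟩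
      have hbad : ∀ C'', ((C' :: L) ++ [v]).head? = some C'' → ¬ (C \ {q} ⊆ C'') := by
        intro C'' h1 h4
        have h5 : C' = C'' := by
          simpa using h1
        subst h5
        have h6 : v = C' := h_u C hCT v hvT C' hC'T q hq hs1.1
          (by
            rintro rfl
            exact (List.nodup_cons.1 hM).1 (by simp)) h2 h4
        exact hvM (by rw [h6]; simp)
      exact gd_join (sg_one hv)
        (st_io_cut hq (fun h => hs1.1 (h_inj C hCT v hvT h).symm) h2 hs1) (hex.2 hC q hqσ hbad) hvM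
    · exact gd_join (sg_one hv) (st_io_io hs1) (hex.1 hC) hvM
  obtain ⟨N, h1, h2, h4⟩ := key
  exact ⟨N, h2, h1, h4⟩

end Pool.Agent.LibTR40
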