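import Pool.Agent.LibFL52.G4
import Pool.Agent.LibFF40.G6
import Pool.Agent.LibTR40.A

/-! # Edges of a simple polytope, and the transfer of closed lists -/

set_option autoImplicit false

noncomputable section

open scoped Classical

namespace Pool.Agent.LibTR40

open Pool.Agent.LibFL52

variable {d : ℕ} {Q : Type} [Fintype Q] {a : Q → E d} {b : Q → ℝ} {S : Finset (E d)}

/-- adjacent vertices are neighbours across one inequality -/
theorem adj_nb (h : Po a b S) (x y : S) (hxy : (gr S).Adj x y) : ∃ q, Nb a b S q (x : E d) (y : E d) := by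
  unfold gr at hxy
  rw [SimpleGraph.fromRel_adj] at hxy
  obtain ⟨hne, hex⟩ := hxy
  have hex' : IsExposed ℝ (convexHull ℝ (S : Set (E d))) (segment ℝ (x : E d) (y : E d)) := by
    rcases hex with h1 | h1
    · exact h1
    · rw [segment_symm]
      exact h1
  obtain ⟨l, hl⟩ := hex' ⟨(x : E d), left_mem_segment ℝ _ _⟩
  have hxC : (x : E d) ∈ convexHull ℝ (S : Set (E d)) := subset_convexHull ℝ _ x.2
  have hyC : (y : E d) ∈ convexHull ℝ (S : Set (E d)) := subset_convexHull ℝ _ y.2
  have hx1 : ∀ w ∈ convexHull ℝ (S : Set (E d)), l w ≤ l (x : E d) := by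
    have h1 : (x : E d) ∈ segment ℝ (x : E d) (y : E d) := left_mem_segment ℝ _ _
    rw [hl] at h1
    exact h1.2
  have hy1 : ∀ w ∈ convexHull ℝ (S : Set (E d)), l w ≤ l (y : E d) := by
    have h1 : (y : E d) ∈ segment ℝ (x : E d) (y : E d) := right_mem_segment ℝ _ _
    rw [hl] at h1
    exact h1.2
  have hxy : l (x : E d) = l (y : E d) := le_antisymm (hy1 _ hxC) (hx1 _ hyC)
  have hyle : ∀ p, inner ℝ (a p) (y : E d) ≤ b p := by
    have h1 := hyC
    rw [h.hull] at h1
    exact h1
  obtain ⟨w, -, hw⟩ := h.dirs x.2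
  have hne' : (y : E d) - (x : E d) ≠ 0 := by
    intro h0
    exact hne (Subtype.ext (sub_eq_zero.1 h0).symm)
  -- the directions
  have hdir : ∀ q ∈ T a b (x : E d), l (w q) ≤ 0 ∧ (l (w q) = 0 → Nb a b S q (x : E d) (y : E d)) := by
    intro q hq
    obtain ⟨z, hz⟩ := h.nb_exists x.2 hq
    obtain ⟨c, hc, hzc⟩ := h.nb_dir x.2 hz hw
    have hzC : z ∈ convexHull ℝ (S : Set (E d)) := subset_convexHull ℝ _ hz.1
    have h1 : l z = l (x : E d) + c * l (w q) := by
      rw [hzc, map_add, map_smul, smul_eq_mul]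
    have h2 := hx1 z hzC
    constructor
    · by_contra h3
      push Not at h3
      have := mul_pos hc h3
      linarith
    · intro h3
      rw [h3, mul_zero, add_zero] at h1
      have h4 : z ∈ segment ℝ (x : E d) (y : E d) := by
        rw [hl]
        refine ⟨hzC, fun u hu => ?_⟩
        rw [h1]
        exact hx1 u hu
      have h5 := (mem_extremePoints_iff_forall_segment.1 (h.vert z hz.1)).2 _ hxC _ hyC h4
      rcases h5 with h5 | h5
      · exact absurd h5.symm hz.2.1
      · rw [h5]
        exact hz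
  by_contra hcon
  push Not at hcon
  apply hne'
  have h0 : l ((y : E d) - (x : E d)) = 0 := by rw [map_sub, hxy, sub_self]
  have hpos : ∀ q ∈ (T a b (x : E d)).toFinite.toFinset,
      0 ≤ -inner ℝ (a q) ((y : E d) - (x : E d)) := by
    intro q hq
    have hq0 : q ∈ T a b (x : E d) := (Set.Finite.mem_toFinset _).mp hq
    have hq' : inner ℝ (a q) (x : E d) = b q := hq0
    rw [inner_sub_right, hq']
    have := hyle q
    linarith
  have h1 : ∑ q ∈ (T a b (x : E d)).toFinite.toFinset,
      (-inner ℝ (a q) ((y : E d) - (x : E d))) * (- l (w q)) = 0 := by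
    have h2 : l ((y : E d) - (x : E d)) = ∑ q ∈ (T a b (x : E d)).toFinite.toFinset,
        (-inner ℝ (a q) ((y : E d) - (x : E d))) * l (w q) := by
      conv_lhs => rw [hw ((y : E d) - (x : E d))]
      rw [map_sum]
      exact Finset.sum_congr rfl fun q _ => by rw [map_smul, smul_eq_mul]
    rw [h0] at h2
    have h3 : ∑ q ∈ (T a b (x : E d)).toFinite.toFinset,
        (-inner ℝ (a q) ((y : E d) - (x : E d))) * (- l (w q)) =
        - ∑ q ∈ (T a b (x : E d)).toFinite.toFinset,
          (-inner ℝ (a q) ((y : E d) - (x : E d))) * l (w q) := by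
      rw [← Finset.sum_neg_distrib]
      exact Finset.sum_congr rfl fun q _ => by ring
    rw [h3, ← h2, neg_zero]
  have h2 := (Finset.sum_eq_zero_iff_of_nonneg (fun q hq => mul_nonneg (hpos q hq)
    (neg_nonneg.2 (hdir q ((Set.Finite.mem_toFinset _).mp hq)).1))).1 h1
  rw [hw ((y : E d) - (x : E d))]
  refine Finset.sum_eq_zero fun q hq => ?_
  rcases mul_eq_zero.1 (h2 q hq) with h3 | h3
  · rw [h3, zero_smul]
  · exact absurd ((hdir q ((Set.Finite.mem_toFinset _).mp hq)).2 (by linarith)) (hcon q)

/-- a closed list of all vertices from a Hamiltonian cycle -/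
theorem list_of_ham {V : Type} [Fintype V] [DecidableEq V] (G : SimpleGraph V) (h : G.IsHamiltonian)
    (h1 : Fintype.card V ≠ 1) : ∃ (v : V) (M : List V), (v :: M).Nodup ∧ (v :: (M ++ [v])).IsChain G.Adj ∧
      (∀ x, x ∈ v :: M) ∧ 3 ≤ (v :: M).length := by
  obtain ⟨v, p, hp⟩ := h h1
  rw [SimpleGraph.Walk.isHamiltonianCycle_iff_isCycle_and_support_count_tail_eq_one] at hp
  obtain ⟨hcyc, hcount⟩ := hp
  obtain ⟨M, hM⟩ : ∃ M, p.support.tail = M ++ [v] := by
    have h2 : p.support.tail ≠ [] := by
      intro h3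
      have h4 := hcount v
      rw [h3] at h4
      simp at h4
    refine ⟨p.support.tail.dropLast, ?_⟩
    have h5 : p.support.tail.getLast h2 = v := by
      have h6 : p.support.getLast (by simp) = v := by simp
      rw [List.getLast_tail]
      exact h6
    have h7 := List.dropLast_append_getLast h2
    rw [h5] at h7
    exact h7.symm
  have hsup : p.support = v :: (M ++ [v]) := by
    rw [← hM]
    exact p.cons_tail_support.symm
  have hall : ∀ x, (M ++ [v]).count x = 1 := by
    intro x
    rw [← hM]
    exact hcount x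
  have hnd : (M ++ [v]).Nodup := by
    rw [List.nodup_iff_count_le_one]
    intro x
    rw [hall x]
  have hperm : (v :: M).Perm (M ++ [v]) := (List.perm_append_singleton v M).symm
  refine ⟨v, M, hperm.nodup_iff.2 hnd, ?_, fun x => ?_, ?_⟩
  · rw [← hsup]
    exact p.isChain_adj_support
  · rw [hperm.mem_iff]
    exact List.count_pos_iff.1 (by rw [hall x]; norm_num)
  · have h6 := hcyc.three_le_length
    have h7 := p.length_support
    rw [hsup] at h7
    simp only [List.length_cons, List.length_append, List.length_nil] at h7 ⊢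
    omega

end Pool.Agent.LibTR40
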