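import Pool.Agent.LibTR40.B

/-! # Truncation of a face preserves Hamiltonicity (combinatorial form) -/

set_option autoImplicit false

noncomputable section

open scoped Classical

namespace Pool.Agent.LibTR40

open Pool.Agent.LibFL52

variable {d : ℕ} {Q : Type} [Fintype Q] {a : Q → E d} {b : Q → ℝ} {S : Finset (E d)}

theorem nb_not_mem (h : Po a b S) {x y : E d} (hx : x ∈ S) {q : Q} (hy : Nb a b S q x y) : q ∉ T a b y := by
  intro hq
  refine hy.2.1 (h.tight_inj hx hy.1 fun p hp => ?_).symm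
  by_cases hpq : p = q
  · rw [hpq]; exact hq
  · exact hy.2.2.2 ⟨hp, hpq⟩

theorem ham_trunc (hd : 1 ≤ d) (h : Po a b S) {a' : Option Q → E d} {b' : Option Q → ℝ} {S' : Finset (E d)}
    (h' : Po a' b' S') {σ : Finset Q} (hσ : 3 ≤ σ.card)
    (hnew : ∀ D : Set (Option Q), (∃ y ∈ S', T a' b' y = D) ↔ ∃ x ∈ S, D ∈ new (σ : Set Q) (T a b x))
    (hH : (gr S).IsHamiltonian) : (gr S').IsHamiltonian := by
  -- two vertices
  have hstep : ∀ x ∈ S, ∀ q ∈ T a b x, ∃ y ∈ S, q ∉ T a b y := by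
    intro x hx q hq
    obtain ⟨y, hy⟩ := h.nb_exists hx hq
    exact ⟨y, hy.1, nb_not_mem h hx hy⟩
  have hcard : Fintype.card S ≠ 1 := by
    intro hc
    obtain ⟨x, hx⟩ := h.ne
    have h1 : (T a b x).Nonempty := by
      apply Set.nonempty_of_ncard_ne_zero
      rw [h.tight x hx]
      omega
    obtain ⟨q, hq⟩ := h1
    obtain ⟨y, hy, hqy⟩ := hstep x hx q hq
    rw [Fintype.card_eq_one_iff] at hc
    obtain ⟨z, hz⟩ := hc
    have h2 : (⟨x, hx⟩ : S) = ⟨y, hy⟩ := by rw [hz ⟨x, hx⟩, hz ⟨y, hy⟩]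
    have h3 : x = y := congrArg Subtype.val h2
    exact hqy (h3 ▸ hq)
  obtain ⟨v, M, hnd, hch, hall, h3⟩ := list_of_ham (gr S) hH hcard
  -- the closed list of tight sets
  obtain ⟨f, hf⟩ : ∃ f : S → Set Q, f = fun x : S => T a b (x : E d) := ⟨_, rfl⟩
  have hfi : Function.Injective f := by
    intro x y hxy
    rw [hf] at hxy
    exact Subtype.ext (h.tight_inj x.2 y.2 (le_of_eq hxy))
  have hch' : (v :: (M ++ [v])).IsChain (fun x y => SS (f x) (f y)) := by
    refine hch.imp fun x y hxy => ?_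
    obtain ⟨q, hq⟩ := adj_nb h x y hxy
    obtain ⟨q', hq'⟩ := adj_nb h y x hxy.symm
    have hne : f x ≠ f y := fun h4 => hxy.ne (hfi h4)
    rw [hf] at hne ⊢
    exact ⟨⟨hne, q, hq.2.2.1, hq.2.2.2⟩, ⟨hne.symm, q', hq'.2.2.1, hq'.2.2.2⟩⟩
  have hclosed : ∃ (v : S) (M : List S), (v :: M).Nodup ∧ (v :: (M ++ [v])).IsChain (fun x y => SS (f x) (f y)) ∧
      (∀ x, x ∈ v :: M) ∧ 3 ≤ (v :: M).length ∧ ¬ (σ : Set Q) ⊆ f v := by
    have hu : ∃ u : S, ¬ (σ : Set Q) ⊆ f u := by
      by_cases h4 : (σ : Set Q) ⊆ f v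
      · obtain ⟨q, hq⟩ : σ.Nonempty := Finset.card_pos.1 (by omega)
        have h5 : q ∈ T a b (v : E d) := by
          have := h4 hq
          rw [hf] at this
          exact this
        obtain ⟨y, hy, hqy⟩ := hstep v v.2 q h5
        refine ⟨⟨y, hy⟩, fun h6 => hqy ?_⟩
        have := h6 hq
        rw [hf] at this
        exact this
      · exact ⟨v, h4⟩
    obtain ⟨u, hu⟩ := hu
    have hCL : LibFF40.CL (fun x y => SS (f x) (f y)) v M := ⟨hnd, hch'⟩
    obtain ⟨N, hN, hNm⟩ := hCL.start (hall u)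
    have hallN : ∀ x, x ∈ u :: N := fun x => (hNm x).2 (hall x)
    refine ⟨u, N, hN.1, hN.2, hallN, ?_, hu⟩
    have h5 : (v :: M).length ≤ (u :: N).length :=
      (hnd.subperm fun x _ => hallN x).length_le
    omega
  clear hnd hch hall h3 hch' v M
  obtain ⟨v, M, hnd, hch, hall, h3, hv⟩ := hclosed
  have key := closed (𝓣 := Set.range f) (σ := σ) (v := f v) (M := M.map f)
    (by
      rintro _ ⟨x, rfl⟩ _ ⟨y, rfl⟩ hxy
      rw [hf] at hxy ⊢
      exact congrArg (fun z : E d => T a b z) (h.tight_inj x.2 y.2 hxy))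
    (by
      rintro _ ⟨z, rfl⟩ _ ⟨x, rfl⟩ _ ⟨y, rfl⟩ k hk hxz hyz h1 h2
      rw [hf] at hk hxz hyz h1 h2 ⊢
      have e1 : Nb a b S k (z : E d) (x : E d) := ⟨x.2, fun h5 => hxz (congrArg (fun w : E d => T a b w) h5), hk, h1⟩
      have e2 : Nb a b S k (z : E d) (y : E d) := ⟨y.2, fun h5 => hyz (congrArg (fun w : E d => T a b w) h5), hk, h2⟩
      exact congrArg (fun z : E d => T a b z) (h.nb_unique z.2 e1 e2))
    hσ (by
      intro A hA
      rcases List.mem_cons.1 hA with rfl | hA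
      · exact ⟨v, rfl⟩
      · obtain ⟨x, _, rfl⟩ := List.mem_map.1 hA
        exact ⟨x, rfl⟩) hv
    (by
      have h5 : ((v :: M).map f).Nodup := hnd.map hfi
      exact h5)
    (by
      have h5 : ((v :: (M ++ [v])).map f).IsChain SS := (List.isChain_map f).2 hch
      simpa using h5)
    (by simpa using h3)
  obtain ⟨N, hN1, hN2, hN3⟩ := key
  -- the vertices of `S'`
  have hN4 : ∀ D, D ∈ io (f v) :: N ↔ ∃ y ∈ S', T a' b' y = D := by
    intro D
    rw [hN3, hnew]
    constructor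
    · rintro ⟨A, hA, hD⟩
      have hA' : ∃ x ∈ (v :: M), f x = A := by
        have : A ∈ (v :: M).map f := hA
        obtain ⟨x, hx, hxA⟩ := List.mem_map.1 this
        exact ⟨x, hx, hxA⟩
      obtain ⟨x, _, rfl⟩ := hA'
      refine ⟨x, x.2, ?_⟩
      rw [hf] at hD
      exact hD
    · rintro ⟨x, hx, hD⟩
      refine ⟨f ⟨x, hx⟩, ?_, ?_⟩
      · have : f ⟨x, hx⟩ ∈ (v :: M).map f := List.mem_map.2 ⟨_, hall _, rfl⟩
        exact this
      · rw [hf]
        exact hD
  obtain ⟨g, hg⟩ : ∃ g : S' → Set (Option Q), g = fun y : S' => T a' b' (y : E d) := ⟨_, rfl⟩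
  have hgi : Function.Injective g := by
    intro x y hxy
    rw [hg] at hxy
    exact Subtype.ext (h'.tight_inj x.2 y.2 (le_of_eq hxy))
  -- lift the list
  have hlift : ∀ L : List (Set (Option Q)), (∀ D ∈ L, ∃ y ∈ S', T a' b' y = D) → ∃ L' : List S', L'.map g = L := by
    intro L
    induction L with
    | nil => exact fun _ => ⟨[], rfl⟩
    | cons D L ih =>
      intro hL
      obtain ⟨L', hL'⟩ := ih fun D' hD' => hL D' (List.mem_cons_of_mem _ hD')
      obtain ⟨y, hy, hyD⟩ := hL D (by simp)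
      refine ⟨⟨y, hy⟩ :: L', ?_⟩
      rw [List.map_cons, hL', hg]
      show T a' b' y :: L = D :: L
      rw [hyD]
  obtain ⟨L', hL'⟩ := hlift N fun D hD => (hN4 D).1 (List.mem_cons_of_mem _ hD)
  obtain ⟨y, hy, hyD⟩ := (hN4 (io (f v))).1 (by simp)
  have hgy : g ⟨y, hy⟩ = io (f v) := by
    rw [hg]
    exact hyD
  have hmap : ((⟨y, hy⟩ : S') :: L').map g = io (f v) :: N := by rw [List.map_cons, hL', hgy]
  refine LibFF40.ham_of_list (gr S') ⟨y, hy⟩ L' ?_ ?_ ?_ ?_
  · rw [← hmap] at hN1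
    exact List.Nodup.of_map g hN1
  · have h5 : (((⟨y, hy⟩ : S') :: (L' ++ [⟨y, hy⟩])).map g).IsChain St := by
      have e : ((⟨y, hy⟩ : S') :: (L' ++ [⟨y, hy⟩])).map g = io (f v) :: (N ++ [io (f v)]) := by
        rw [List.map_cons, List.map_append, hL', List.map_singleton, hgy]
      rw [e]
      exact hN2
    rw [List.isChain_map] at h5
    refine h5.imp fun x z hxz => ?_
    obtain ⟨hne, q, hq, hsub⟩ := hxz
    rw [hg] at hne hq hsub
    exact h'.gr_adj x z (q := q) ⟨z.2, fun h6 => hne (by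
      show T a' b' (x : E d) = T a' b' (z : E d)
      rw [h6]), hq, hsub⟩
  · intro x
    have h5 : g x ∈ ((⟨y, hy⟩ : S') :: L').map g := by
      rw [hmap, hN4]
      rw [hg]
      exact ⟨x, x.2, rfl⟩
    obtain ⟨z, hz, hzx⟩ := List.mem_map.1 h5
    rw [← hgi hzx]
    exact hz
  · -- length
    have h5 : (((⟨y, hy⟩ : S') :: L').map g).length = (io (f v) :: N).length := by rw [hmap]
    rw [List.length_map] at h5
    rw [h5]
    -- the new sets of three different members
    have hpick : ∀ A : Set Q, ∃ D, D ∈ new (σ : Set Q) A := by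
      intro A
      by_cases hA : (σ : Set Q) ⊆ A
      · obtain ⟨q, hq⟩ : σ.Nonempty := Finset.card_pos.1 (by omega)
        exact ⟨cut A q, Or.inr ⟨hA, q, hq, rfl⟩⟩
      · exact ⟨io A, Or.inl ⟨hA, rfl⟩⟩
    choose k hk using hpick
    have h6 : ((f v :: M.map f).map k).Nodup := by
      refine List.Nodup.map ?_ ?_
      · intro A B hAB
        exact new_disj (hk A) (hAB ▸ hk B)
      · have h7 : ((v :: M).map f).Nodup := hnd.map hfi
        exact h7
    have h7 : ((f v :: M.map f).map k).length ≤ (io (f v) :: N).length := by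
      refine (h6.subperm fun D hD => ?_).length_le
      obtain ⟨A, hA, rfl⟩ := List.mem_map.1 hD
      exact (hN3 _).2 ⟨A, hA, hk A⟩
    rw [List.length_map, List.length_cons, List.length_map] at h7
    rw [List.length_cons] at h3
    omega

end Pool.Agent.LibTR40
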