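import Pool.Agent.LibTR40.C

/-! # Cutting off a face by a halfspace -/

set_option autoImplicit false

noncomputable section

open scoped Classical

namespace Pool.Agent.LibTR40

open Pool.Agent.LibFL52

variable {d : ℕ} {Q : Type} [Fintype Q] {a : Q → E d} {b : Q → ℝ} {S : Finset (E d)}

theorem eps {y u : E d} (hy : ∀ q, inner ℝ (a q) y ≤ b q)
    (hu : ∀ q ∈ T a b y, inner ℝ (a q) u = 0) :
    ∃ ε : ℝ, 0 < ε ∧ (∀ q, inner ℝ (a q) (y + ε • u) ≤ b q) ∧
      ∀ q, inner ℝ (a q) (y - ε • u) ≤ b q := by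
  have hev : ∀ᶠ t : ℝ in nhds 0, ∀ q, inner ℝ (a q) (y + t • u) ≤ b q := by
    rw [Filter.eventually_all]
    intro q
    by_cases hq : inner ℝ (a q) y = b q
    · refine Filter.Eventually.of_forall fun t => ?_
      rw [inner_add_right, inner_smul_right, hu q hq, mul_zero, add_zero]
      exact hy q
    · have hlt : inner ℝ (a q) (y + (0 : ℝ) • u) < b q := by
        rw [zero_smul, add_zero]
        exact lt_of_le_of_ne (hy q) hq
      have hc : Continuous (fun t : ℝ => (inner ℝ (a q) (y + t • u) : ℝ)) := by fun_prop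
      exact (hc.continuousAt.eventually_lt continuousAt_const hlt).mono fun t ht => ht.le
  obtain ⟨ε, hε, hball⟩ := Metric.eventually_nhds_iff.1 hev
  refine ⟨ε / 2, by positivity, fun q => ?_, fun q => ?_⟩
  · refine hball ?_ q
    rw [Real.dist_0_eq_abs, abs_of_pos (by positivity)]
    linarith
  · have h1 : dist (-(ε / 2)) 0 < ε := by
      rw [Real.dist_0_eq_abs, abs_neg, abs_of_pos (by positivity)]
      linarith
    have h2 := hball h1 q
    rwa [neg_smul, ← sub_eq_add_neg] at h2

theorem inj (hull : convexHull ℝ (S : Set (E d)) = {x | ∀ q, inner ℝ (a q) x ≤ b q}) {x : E d}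
    (hxe : x ∈ Set.extremePoints ℝ (convexHull ℝ (S : Set (E d)))) {u : E d}
    (hu : ∀ q ∈ T a b x, inner ℝ (a q) u = 0) : u = 0 := by
  rw [hull, mem_extremePoints] at hxe
  obtain ⟨ε, hε, h1, h2⟩ := eps (fun q => hxe.1 q) hu
  have h3 := hxe.2 (x + ε • u) h1 (x - ε • u) h2 (by
    refine ⟨1 / 2, 1 / 2, by norm_num, by norm_num, by norm_num, ?_⟩
    rw [← smul_add]
    have : x + ε • u + (x - ε • u) = (2 : ℝ) • x := by
      rw [two_smul]
      abel
    rw [this, smul_smul]
    norm_num)
  have h4 : ε • u = 0 := by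
    have := h3.1
    simpa using this
  exact (smul_eq_zero.1 h4).resolve_left hε.ne'

omit [Fintype Q] in
theorem face (h : Po a b S) (z : E d) (hz : z ∈ convexHull ℝ (S : Set (E d))) :
    z ∈ convexHull ℝ {v : E d | v ∈ S ∧ T a b z ⊆ T a b v} := by
  have hin : ∀ {w : E d}, w ∈ convexHull ℝ (S : Set (E d)) → ∀ i, inner ℝ (a i) w ≤ b i := by
    intro w hw
    rw [h.hull] at hw
    exact hw
  obtain ⟨w, hw0, hw1, hwy⟩ := Finset.mem_convexHull'.1 hz
  have hsl : ∀ i, b i - inner ℝ (a i) z = ∑ v ∈ S, w v * (b i - inner ℝ (a i) v) := by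
    intro i
    have h1 : inner ℝ (a i) z = ∑ v ∈ S, w v * inner ℝ (a i) v := by
      rw [← hwy, inner_sum]
      exact Finset.sum_congr rfl fun v _ => inner_smul_right _ _ _
    have h2 : b i = ∑ v ∈ S, w v * b i := by rw [← Finset.sum_mul, hw1, one_mul]
    rw [h1]
    conv_lhs => rw [h2]
    rw [← Finset.sum_sub_distrib]
    exact Finset.sum_congr rfl fun v _ => by ring
  have hsp : ∀ v ∈ S, w v ≠ 0 → T a b z ⊆ T a b v := by
    intro v hv hwv i hi
    have hi' : inner ℝ (a i) z = b i := hi
    have h0 : ∑ v ∈ S, w v * (b i - inner ℝ (a i) v) = 0 := by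
      rw [← hsl i, hi', sub_self]
    have h1 := (Finset.sum_eq_zero_iff_of_nonneg (fun u hu => mul_nonneg (hw0 u hu)
      (sub_nonneg.2 (hin (subset_convexHull ℝ _ hu) i)))).1 h0 v hv
    rcases mul_eq_zero.1 h1 with h2 | h2
    · exact absurd h2 hwv
    · show inner ℝ (a i) v = b i
      linarith
  have hmem : z ∈ convexHull ℝ ((S.filter fun v => w v ≠ 0 : Finset (E d)) : Set (E d)) := by
    refine Finset.mem_convexHull'.2 ⟨w, fun v hv => hw0 v (Finset.mem_filter.1 hv).1, ?_, ?_⟩
    · rw [← hw1]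
      exact Finset.sum_filter_ne_zero S
    · rw [← hwy]
      refine Finset.sum_subset (Finset.filter_subset _ S) fun v hv hv2 => ?_
      have h1 : w v = 0 := by
        by_contra h2
        exact hv2 (Finset.mem_filter.2 ⟨hv, h2⟩)
      rw [h1, zero_smul]
  refine convexHull_mono ?_ hmem
  intro v hv
  rw [Finset.mem_coe, Finset.mem_filter] at hv
  exact ⟨hv.1, hsp v hv.1 hv.2⟩

/-- the inequalities of the truncated polytope -/
def xa (a : Q → E d) (c : E d) : Option Q → E d := fun o => o.elim c a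

def xb (b : Q → ℝ) (t : ℝ) : Option Q → ℝ := fun o => o.elim t b

omit [Fintype Q] in
theorem some_T {c : E d} {t : ℝ} {z : E d} {q : Q} : some q ∈ T (xa a c) (xb b t) z ↔ q ∈ T a b z := Iff.rfl

omit [Fintype Q] in
theorem none_T {c : E d} {t : ℝ} {z : E d} : none ∈ T (xa a c) (xb b t) z ↔ inner ℝ c z = t := Iff.rfl

omit [Fintype Q] in
theorem T_io {c : E d} {t : ℝ} {z : E d} (h : inner ℝ c z ≠ t) : T (xa a c) (xb b t) z = io (T a b z) := by
  ext o
  rcases o with _ | q
  · rw [none_T]
    exact ⟨fun h1 => absurd h1 h, fun h1 => absurd h1 (none_io _)⟩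
  · rw [some_T, some_io]

omit [Fintype Q] in
theorem T_cut {c : E d} {t : ℝ} {z : E d} {A : Set Q} {i : Q} (h : inner ℝ c z = t) (hA : T a b z = A \ {i}) :
    T (xa a c) (xb b t) z = cut A i := by
  ext o
  rcases o with _ | q
  · rw [none_T]
    exact ⟨fun _ => none_cut _ _, fun _ => h⟩
  · rw [some_T, some_cut, hA]
    rfl

theorem cutoff (h : Po a b S) {S' : Finset (E d)} {c : E d} {t : ℝ} {σ : Finset Q} (hne : S'.Nonempty)
    (hvert : ∀ x ∈ S', x ∈ Set.extremePoints ℝ (convexHull ℝ (S' : Set (E d))))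
    (hhull : convexHull ℝ (S' : Set (E d)) = convexHull ℝ (S : Set (E d)) ∩ {x | inner ℝ c x ≤ t})
    (hoff : ∀ x ∈ S, inner ℝ c x ≠ t)
    (hface : ∀ x ∈ S, t < inner ℝ c x ↔ (σ : Set Q) ⊆ T a b x) :
    Po (xa a c) (xb b t) S' ∧
      ∀ D : Set (Option Q), (∃ y ∈ S', T (xa a c) (xb b t) y = D) ↔ ∃ x ∈ S, D ∈ new (σ : Set Q) (T a b x) := by
  have hull' : convexHull ℝ (S' : Set (E d)) = {x | ∀ o, inner ℝ (xa a c o) x ≤ xb b t o} := by
    rw [hhull, h.hull]
    ext x
    constructor
    · rintro ⟨h1, h2⟩ o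
      rcases o with _ | q
      · exact h2
      · exact h1 q
    · intro h1
      exact ⟨fun q => h1 (some q), h1 none⟩
  have hsub : convexHull ℝ (S' : Set (E d)) ⊆ convexHull ℝ (S : Set (E d)) := by
    rw [hhull]
    exact Set.inter_subset_left
  have hle : ∀ x ∈ S, ∀ q, inner ℝ (a q) x ≤ b q := by
    intro x hx
    have h1 : x ∈ convexHull ℝ (S : Set (E d)) := subset_convexHull ℝ _ hx
    rw [h.hull] at h1
    exact h1
  have hmemS' : ∀ x, x ∈ Set.extremePoints ℝ (convexHull ℝ (S' : Set (E d))) → x ∈ S' := by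
    intro x hx
    exact extremePoints_convexHull_subset hx
  -- kept vertices
  have hkeep : ∀ x ∈ S, ¬ (σ : Set Q) ⊆ T a b x → inner ℝ c x < t := by
    intro x hx hn
    rcases lt_trichotomy (inner ℝ c x) t with h1 | h1 | h1
    · exact h1
    · exact absurd h1 (hoff x hx)
    · exact absurd ((hface x hx).1 h1) hn
  have hα : ∀ x ∈ S, ¬ (σ : Set Q) ⊆ T a b x → x ∈ S' ∧ T (xa a c) (xb b t) x = io (T a b x) := by
    intro x hx hn
    have h1 := hkeep x hx hn
    refine ⟨hmemS' x ?_, T_io h1.ne⟩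
    have h2 := h.vert x hx
    rw [mem_extremePoints] at h2 ⊢
    refine ⟨?_, fun x1 h3 x2 h4 h5 => h2.2 x1 (hsub h3) x2 (hsub h4) h5⟩
    rw [hhull]
    exact ⟨h2.1, h1.le⟩
  -- new vertices
  have hβ : ∀ v ∈ S, (σ : Set Q) ⊆ T a b v → ∀ i ∈ σ,
      ∃ z ∈ S', T (xa a c) (xb b t) z = cut (T a b v) i := by
    intro v hv hσv i hi
    have hiv : i ∈ T a b v := hσv hi
    obtain ⟨u, hu⟩ := h.nb_exists hv hiv
    have hiu := nb_not_mem h hv hu
    have hcu : inner ℝ c u < t := hkeep u hu.1 fun h1 => hiu (h1 hi)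
    have hcv : t < inner ℝ c v := (hface v hv).2 hσv
    obtain ⟨lam, hlam⟩ : ∃ lam : ℝ, lam = (inner ℝ c v - t) / (inner ℝ c v - inner ℝ c u) := ⟨_, rfl⟩
    have hden : 0 < inner ℝ c v - inner ℝ c u := by linarith
    have hl0 : 0 < lam := by rw [hlam]; exact div_pos (by linarith) hden
    have hl1 : lam < 1 := by rw [hlam, div_lt_one hden]; linarith
    have hlm : lam * (inner ℝ c v - inner ℝ c u) = inner ℝ c v - t := by
      rw [hlam, div_mul_cancel₀ _ hden.ne']
    obtain ⟨z, hz⟩ : ∃ z : E d, z = (1 - lam) • v + lam • u := ⟨_, rfl⟩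
    have hval : ∀ w : E d, inner ℝ w z = (1 - lam) * inner ℝ w v + lam * inner ℝ w u := by
      intro w
      rw [hz, inner_add_right, inner_smul_right, inner_smul_right]
    have hcz : inner ℝ c z = t := by
      rw [hval]
      linarith
    have hvC : v ∈ convexHull ℝ (S : Set (E d)) := subset_convexHull ℝ _ hv
    have huC : u ∈ convexHull ℝ (S : Set (E d)) := subset_convexHull ℝ _ hu.1
    have hzo : z ∈ openSegment ℝ v u := ⟨1 - lam, lam, by linarith, hl0, by ring, hz.symm⟩
    have hzs : z ∈ segment ℝ v u := openSegment_subset_segment ℝ _ _ hzo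
    have hzC : z ∈ convexHull ℝ (S : Set (E d)) := (convex_convexHull ℝ _).segment_subset hvC huC hzs
    have hTz : T a b z = T a b v \ {i} := by
      ext p
      constructor
      · intro hp
        have hp' : inner ℝ (a p) z = b p := hp
        rw [hval] at hp'
        have h1 := hle v hv p
        have h2 := hle u hu.1 p
        have h3 : inner ℝ (a p) v = b p := by
          by_contra h4
          have h5 : inner ℝ (a p) v < b p := lt_of_le_of_ne h1 h4
          nlinarith
        have h6 : inner ℝ (a p) u = b p := by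
          by_contra h4
          have h5 : inner ℝ (a p) u < b p := lt_of_le_of_ne h2 h4
          nlinarith
        refine ⟨h3, ?_⟩
        rintro rfl
        exact hiu h6
      · rintro ⟨hp, hpi⟩
        have h3 : inner ℝ (a p) v = b p := hp
        have h6 : inner ℝ (a p) u = b p := hu.2.2.2 ⟨hp, hpi⟩
        show inner ℝ (a p) z = b p
        rw [hval, h3, h6]
        ring
    refine ⟨z, hmemS' z ?_, T_cut hcz hTz⟩
    rw [mem_extremePoints]
    refine ⟨?_, ?_⟩
    · rw [hhull]
      exact ⟨hzC, hcz.le⟩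
    · intro x1 h1 x2 h2 h12
      have hext : IsExtreme ℝ (convexHull ℝ (S : Set (E d))) (segment ℝ v u) := (h.exposed hv hu).isExtreme
      have g1 := hext.2 (hsub h1) (hsub h2) hzs h12
      have g2 := hext.2 (hsub h2) (hsub h1) hzs (by rwa [openSegment_symm])
      rw [hhull] at h1 h2
      obtain ⟨α, β, hα0, hβ0, hαβ, he⟩ := h12
      have e1 : α * inner ℝ c x1 + β * inner ℝ c x2 = t := by
        rw [← hcz, ← he, inner_add_right, inner_smul_right, inner_smul_right]
      have k1 : inner ℝ c x1 ≤ t := h1.2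
      have k2 : inner ℝ c x2 ≤ t := h2.2
      have e2 : α * t + β * t = t := by rw [← add_mul, hαβ, one_mul]
      have m1 : inner ℝ c x1 = t := by
        by_contra h4
        have h5 : inner ℝ c x1 < t := lt_of_le_of_ne k1 h4
        have h6 := mul_lt_mul_of_pos_left h5 hα0
        have h7 := mul_le_mul_of_nonneg_left k2 hβ0.le
        linarith
      have m2 : inner ℝ c x2 = t := by
        by_contra h4
        have h5 : inner ℝ c x2 < t := lt_of_le_of_ne k2 h4
        have h6 := mul_lt_mul_of_pos_left h5 hβ0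
        have h7 := mul_le_mul_of_nonneg_left k1 hα0.le
        linarith
      have huniq : ∀ y ∈ segment ℝ v u, inner ℝ c y = t → y = z := by
        rintro y ⟨s, r, hs, hr, hsr, rfl⟩ hy
        rw [inner_add_right, inner_smul_right, inner_smul_right] at hy
        have hs' : s = 1 - r := by linarith
        subst hs'
        have hr' : r = lam := by
          have : (r - lam) * (inner ℝ c v - inner ℝ c u) = 0 := by linarith
          rcases mul_eq_zero.1 this with h6 | h6
          · linarith
          · exact absurd h6 hden.ne'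
        rw [hr', hz]
      exact ⟨huniq x1 g1 m1, huniq x2 g2 m2⟩
  -- all vertices
  have hγ : ∀ y ∈ S', ∃ x ∈ S, T (xa a c) (xb b t) y ∈ new (σ : Set Q) (T a b x) := by
    intro y hy
    have hyC' : y ∈ convexHull ℝ (S' : Set (E d)) := subset_convexHull ℝ _ hy
    have hyC := hsub hyC'
    have hyle : ∀ q, inner ℝ (a q) y ≤ b q := by
      have h1 := hyC
      rw [h.hull] at h1
      exact h1
    have hyt : inner ℝ c y ≤ t := by
      rw [hhull] at hyC'
      exact hyC'.2
    have hinj : ∀ u : E d, (∀ o ∈ T (xa a c) (xb b t) y, inner ℝ (xa a c o) u = 0) → u = 0 := fun u hu =>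
      inj hull' (hvert y hy) hu
    rcases hyt.lt_or_eq with hlt | heq
    · have hyS : y ∈ S := by
        refine h.mem_of hyle fun u hu => hinj u ?_
        intro o ho
        rcases o with _ | q
        · exact absurd (none_T.1 ho) hlt.ne
        · exact hu q ho
      exact ⟨y, hyS, Or.inl ⟨fun h1 => absurd ((hface y hyS).2 h1) (not_lt.2 hlt.le), T_io hlt.ne⟩⟩
    · have hyS : y ∉ S := fun h1 => hoff y h1 heq
      -- a direction of the edge
      obtain ⟨u, hu, hu0⟩ : ∃ u : E d, (∀ q ∈ T a b y, inner ℝ (a q) u = 0) ∧ u ≠ 0 := by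
        by_contra hcon
        push Not at hcon
        exact hyS (h.mem_of hyle hcon)
      have hcu : inner ℝ c u ≠ 0 := by
        intro h0
        refine hu0 (hinj u ?_)
        intro o ho
        rcases o with _ | q
        · exact h0
        · exact hu q ho
      have hline : ∀ u' : E d, (∀ q ∈ T a b y, inner ℝ (a q) u' = 0) → ∃ r : ℝ, u' = r • u := by
        intro u' hu'
        refine ⟨inner ℝ c u' / inner ℝ c u, ?_⟩
        have h1 : u' - (inner ℝ c u' / inner ℝ c u) • u = 0 := by
          refine hinj _ ?_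
          intro o ho
          rcases o with _ | q
          · show inner ℝ c (u' - (inner ℝ c u' / inner ℝ c u) • u) = 0
            rw [inner_sub_right, inner_smul_right, div_mul_cancel₀ _ hcu, sub_self]
          · show inner ℝ (a q) (u' - (inner ℝ c u' / inner ℝ c u) • u) = 0
            rw [inner_sub_right, inner_smul_right, hu q ho, hu' q ho, mul_zero, sub_zero]
        exact sub_eq_zero.1 h1
      have hF := face h y hyC
      -- a vertex on each side
      have hv : ∃ v ∈ S, T a b y ⊆ T a b v ∧ t < inner ℝ c v := by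
        by_contra hcon
        push Not at hcon
        have h1 : convexHull ℝ {v : E d | v ∈ S ∧ T a b y ⊆ T a b v} ⊆ {x | inner ℝ c x < t} := by
          refine convexHull_min ?_ ?_
          · rintro v ⟨hv1, hv2⟩
            exact lt_of_le_of_ne (hcon v hv1 hv2) (hoff v hv1)
          · exact convex_halfSpace_lt (innerSL ℝ c).isLinear t
        exact absurd (h1 hF) (by
          show ¬ inner ℝ c y < t
          rw [heq]
          exact lt_irrefl t)
      have hw : ∃ w ∈ S, T a b y ⊆ T a b w ∧ inner ℝ c w < t := by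
        by_contra hcon
        push Not at hcon
        have h1 : convexHull ℝ {v : E d | v ∈ S ∧ T a b y ⊆ T a b v} ⊆ {x | t < inner ℝ c x} := by
          refine convexHull_min ?_ ?_
          · rintro v ⟨hv1, hv2⟩
            exact lt_of_le_of_ne (hcon v hv1 hv2) (hoff v hv1).symm
          · exact convex_halfSpace_gt (innerSL ℝ c).isLinear t
        exact absurd (h1 hF) (by
          show ¬ t < inner ℝ c y
          rw [heq]
          exact lt_irrefl t)
      obtain ⟨v, hvS, hyv, hcv⟩ := hv
      obtain ⟨w, hwS, hyw, hcw⟩ := hw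
      have hσv : (σ : Set Q) ⊆ T a b v := (hface v hvS).1 hcv
      have hσw : ¬ (σ : Set Q) ⊆ T a b w := fun h1 => absurd ((hface w hwS).2 h1) (not_lt.2 hcw.le)
      have hvw : v ≠ w := by
        rintro rfl
        exact hσw hσv
      obtain ⟨g, hg1, hg2⟩ := h.dirs hvS
      -- `T v \ T y` has at most one element
      have hone : ∀ i ∈ T a b v, i ∉ T a b y → ∀ j ∈ T a b v, j ∉ T a b y → i = j := by
        intro i hi hiy j hj hjy
        by_contra hij
        have hgi : ∀ q ∈ T a b y, inner ℝ (a q) (g i) = 0 := by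
          intro q hq
          rw [hg1 q (hyv hq) i hi, if_neg]
          rintro rfl
          exact hiy hq
        have hgj : ∀ q ∈ T a b y, inner ℝ (a q) (g j) = 0 := by
          intro q hq
          rw [hg1 q (hyv hq) j hj, if_neg]
          rintro rfl
          exact hjy hq
        obtain ⟨r, hr⟩ := hline _ hgi
        obtain ⟨r', hr'⟩ := hline _ hgj
        have e1 : inner ℝ (a i) (g i) = (-1 : ℝ) := by rw [hg1 i hi i hi, if_pos rfl]
        have e2 : inner ℝ (a i) (g j) = (0 : ℝ) := by rw [hg1 i hi j hj, if_neg hij]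
        have e3 : inner ℝ (a j) (g j) = (-1 : ℝ) := by rw [hg1 j hj j hj, if_pos rfl]
        rw [hr, inner_smul_right] at e1
        rw [hr', inner_smul_right] at e2 e3
        have h1 : inner ℝ (a i) u ≠ 0 := by
          intro h2
          rw [h2, mul_zero] at e1
          norm_num at e1
        have h2 : r' = 0 := (mul_eq_zero.1 e2).resolve_right h1
        rw [h2, zero_mul] at e3
        norm_num at e3
      obtain ⟨i, hiσ, hiw⟩ : ∃ i ∈ (σ : Set Q), i ∉ T a b w := Set.not_subset.1 hσw
      have hiv : i ∈ T a b v := hσv hiσ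
      have hiy : i ∉ T a b y := fun h1 => hiw (hyw h1)
      have hTy : T a b y = T a b v \ {i} := by
        ext p
        constructor
        · intro hp
          refine ⟨hyv hp, ?_⟩
          rintro rfl
          exact hiy hp
        · rintro ⟨hp, hpi⟩
          by_contra hpy
          exact hpi (hone p hp hpy i hiv hiy)
      exact ⟨v, hvS, Or.inr ⟨hσv, i, hiσ, T_cut heq hTy⟩⟩
  refine ⟨⟨hull', hvert, hne, ?_⟩, fun D => ⟨?_, ?_⟩⟩
  · intro y hy
    obtain ⟨x, hx, h1 | ⟨h1, i, hi, h2⟩⟩ := hγ y hy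
    · rw [h1.2, io, Set.ncard_image_of_injective _ (Option.some_injective Q), h.tight x hx]
    · rw [h2, cut, Set.ncard_insert_of_notMem (show none ∉ some '' (T a b x \ {i}) from none_io _) (Set.toFinite _),
        Set.ncard_image_of_injective _ (Option.some_injective Q)]
      have h3 := Set.ncard_diff_singleton_add_one (h1 hi) (Set.toFinite (T a b x))
      rw [h.tight x hx] at h3
      exact h3
  · rintro ⟨y, hy, rfl⟩
    exact hγ y hy
  · rintro ⟨x, hx, ⟨h1, rfl⟩ | ⟨h1, i, hi, rfl⟩⟩
    · obtain ⟨h2, h3⟩ := hα x hx h1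
      exact ⟨x, h2, h3⟩
    · exact hβ x hx h1 i hi

/-- truncation of a face of codimension at least three preserves Hamiltonicity -/
theorem ham_cut (hd : 1 ≤ d) (h : Po a b S) {S' : Finset (E d)} {c : E d} {t : ℝ} {σ : Finset Q} (hne : S'.Nonempty)
    (hvert : ∀ x ∈ S', x ∈ Set.extremePoints ℝ (convexHull ℝ (S' : Set (E d))))
    (hhull : convexHull ℝ (S' : Set (E d)) = convexHull ℝ (S : Set (E d)) ∩ {x | inner ℝ c x ≤ t})
    (hoff : ∀ x ∈ S, inner ℝ c x ≠ t)
    (hface : ∀ x ∈ S, t < inner ℝ c x ↔ (σ : Set Q) ⊆ T a b x) (hσ : 3 ≤ σ.card)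
    (hH : (gr S).IsHamiltonian) : (gr S').IsHamiltonian := by
  obtain ⟨h1, h2⟩ := cutoff h hne hvert hhull hoff hface
  exact ham_trunc hd h h1 hσ h2 hH

omit [Fintype Q] in
theorem ne_of_interior {S : Finset (E d)} (h : (interior (convexHull ℝ (S : Set (E d)))).Nonempty) : S.Nonempty := by
  obtain ⟨x, hx⟩ := h
  have hx' := interior_subset hx
  by_contra hc
  rw [Finset.not_nonempty_iff_eq_empty] at hc
  rw [hc] at hx'
  simp at hx'

theorem main (hd : 1 ≤ d) {S' : Finset (E d)} {c : E d} {t : ℝ} {σ : Set Q}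
    (hS : (interior (convexHull ℝ (S : Set (E d)))).Nonempty)
    (hvS : ∀ s ∈ S, s ∈ Set.extremePoints ℝ (convexHull ℝ (S : Set (E d))))
    (hS' : (interior (convexHull ℝ (S' : Set (E d)))).Nonempty)
    (hvS' : ∀ s ∈ S', s ∈ Set.extremePoints ℝ (convexHull ℝ (S' : Set (E d))))
    (h1 : convexHull ℝ (S : Set (E d)) = {x | ∀ q, inner ℝ (a q) x ≤ b q})
    (h2 : ∀ s ∈ S, {q | inner ℝ (a q) s = b q}.ncard = d)
    (h3 : convexHull ℝ (S' : Set (E d)) = convexHull ℝ (S : Set (E d)) ∩ {x | inner ℝ c x ≤ t})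
    (h4 : ∀ s ∈ S, inner ℝ c s ≠ t) (h5 : 3 ≤ σ.ncard)
    (h6 : ∀ s ∈ S, t < inner ℝ c s ↔ ∀ q ∈ σ, inner ℝ (a q) s = b q)
    (hH : (gr S).IsHamiltonian) :
    (gr S').IsHamiltonian ∧
      ∀ s ∈ S', {q | inner ℝ (a q) s = b q}.ncard + (if inner ℝ c s = t then 1 else 0) = d := by
  have hP : Po a b S := ⟨h1, hvS, ne_of_interior hS, h2⟩
  have hσ : (σ.toFinset : Set Q) = σ := by simp
  have h6' : ∀ x ∈ S, t < inner ℝ c x ↔ ((σ.toFinset : Finset Q) : Set Q) ⊆ T a b x := by
    intro x hx
    rw [h6 x hx, hσ]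
    rfl
  have h5' : 3 ≤ σ.toFinset.card := by
    rw [← Set.ncard_eq_toFinset_card']
    exact h5
  obtain ⟨g1, g2⟩ := cutoff hP (ne_of_interior hS') hvS' h3 h4 h6'
  refine ⟨ham_trunc hd hP g1 h5' g2 hH, fun s hs => ?_⟩
  have g3 := g1.tight s hs
  by_cases hc : inner ℝ c s = t
  · rw [if_pos hc]
    have e : T (xa a c) (xb b t) s = insert none (some '' {q | inner ℝ (a q) s = b q}) := by
      ext o
      rcases o with _ | q
      · exact ⟨fun _ => Set.mem_insert _ _, fun _ => hc⟩
      · rw [some_T]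
        constructor
        · intro h
          exact Or.inr ⟨q, h, rfl⟩
        · rintro (h | ⟨p, hp, hpq⟩)
          · cases h
          · cases hpq
            exact hp
    rw [e, Set.ncard_insert_of_notMem (show none ∉ some '' {q | inner ℝ (a q) s = b q} from none_io _)
      (Set.toFinite _), Set.ncard_image_of_injective _ (Option.some_injective Q)] at g3
    exact g3
  · rw [if_neg hc, add_zero]
    rw [T_io hc, io, Set.ncard_image_of_injective _ (Option.some_injective Q)] at g3
    exact g3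

end Pool.Agent.LibTR40
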