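import Pool.Agent.LibTR40.D

/-! # Cutting off all vertices -/

set_option autoImplicit false

noncomputable section

open scoped Classical

namespace Pool.Agent.LibTR40

open Pool.Agent.LibFL52

variable {d : ℕ} {Q : Type} [Fintype Q] {a : Q → E d} {b : Q → ℝ} {S : Finset (E d)}

/-- the inequalities of the polytope with all vertices cut off -/
def ya (a : Q → E d) (c : S → E d) : Q ⊕ S → E d := Sum.elim a c

def yb (S : Finset (E d)) (b : Q → ℝ) (t : S → ℝ) : Q ⊕ S → ℝ := Sum.elim b t

omit [Fintype Q] in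
theorem inl_T {c : S → E d} {t : S → ℝ} {z : E d} {q : Q} : Sum.inl q ∈ T (ya a c) (yb S b t) z ↔ q ∈ T a b z := Iff.rfl

omit [Fintype Q] in
theorem inr_T {c : S → E d} {t : S → ℝ} {z : E d} {v : S} :
    Sum.inr v ∈ T (ya a c) (yb S b t) z ↔ inner ℝ (c v) z = t v := Iff.rfl

omit [Fintype Q] in
theorem T_dart {c : S → E d} {t : S → ℝ} {z : E d} {v : S} {i : Q} (h : inner ℝ (c v) z = t v)
    (hn : ∀ w : S, w ≠ v → inner ℝ (c w) z < t w) (hA : T a b z = T a b (v : E d) \ {i}) :
    T (ya a c) (yb S b t) z = insert (Sum.inr v) (Sum.inl '' (T a b (v : E d) \ {i})) := by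
  ext o
  rcases o with q | w
  · rw [inl_T, hA, Set.mem_insert_iff]
    constructor
    · intro h1
      exact Or.inr ⟨q, h1, rfl⟩
    · rintro (h1 | ⟨p, hp, hpq⟩)
      · cases h1
      · cases hpq
        exact hp
  · rw [inr_T, Set.mem_insert_iff]
    constructor
    · intro h1
      left
      by_contra h2
      exact absurd h1 (hn w (fun h3 => h2 (by rw [h3]))).ne
    · rintro (h1 | ⟨p, hp, hpq⟩)
      · cases h1
        exact h
      · cases hpq

theorem cutall (h : Po a b S) {S' : Finset (E d)} {c : S → E d} {t : S → ℝ} (hne : S'.Nonempty)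
    (hvert : ∀ x ∈ S', x ∈ Set.extremePoints ℝ (convexHull ℝ (S' : Set (E d))))
    (hhull : convexHull ℝ (S' : Set (E d)) =
      convexHull ℝ (S : Set (E d)) ∩ {x | ∀ v : S, inner ℝ (c v) x ≤ t v})
    (hcut : ∀ v : S, t v < inner ℝ (c v) (v : E d))
    (hdisj : ∀ x ∈ convexHull ℝ (S : Set (E d)), ∀ v w : S, v ≠ w → t v ≤ inner ℝ (c v) x → inner ℝ (c w) x < t w) :
    Po (ya a c) (yb S b t) S' ∧
      ∀ D : Set (Q ⊕ S), (∃ y ∈ S', T (ya a c) (yb S b t) y = D) ↔
        ∃ v : S, ∃ i ∈ T a b (v : E d), D = insert (Sum.inr v) (Sum.inl '' (T a b (v : E d) \ {i})) := by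
  have hull' : convexHull ℝ (S' : Set (E d)) = {x | ∀ o, inner ℝ (ya a c o) x ≤ yb S b t o} := by
    rw [hhull, h.hull]
    ext x
    constructor
    · rintro ⟨h1, h2⟩ o
      rcases o with q | v
      · exact h1 q
      · exact h2 v
    · intro h1
      exact ⟨fun q => h1 (Sum.inl q), fun v => h1 (Sum.inr v)⟩
  have hsub : convexHull ℝ (S' : Set (E d)) ⊆ convexHull ℝ (S : Set (E d)) := by
    rw [hhull]
    exact Set.inter_subset_left
  have hle : ∀ x ∈ S, ∀ q, inner ℝ (a q) x ≤ b q := by
    intro x hx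
    have h1 : x ∈ convexHull ℝ (S : Set (E d)) := subset_convexHull ℝ _ hx
    rw [h.hull] at h1
    exact h1
  have hmemS' : ∀ x, x ∈ Set.extremePoints ℝ (convexHull ℝ (S' : Set (E d))) → x ∈ S' := by
    intro x hx
    exact extremePoints_convexHull_subset hx
  have hother : ∀ v w : S, v ≠ w → inner ℝ (c w) (v : E d) < t w := fun v w hvw =>
    hdisj v (subset_convexHull ℝ _ v.2) v w hvw (hcut v).le
  -- new vertices
  have hβ : ∀ v : S, ∀ i ∈ T a b (v : E d),
      ∃ z ∈ S', T (ya a c) (yb S b t) z = insert (Sum.inr v) (Sum.inl '' (T a b (v : E d) \ {i})) := by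
    intro v i hiv
    have hv := v.2
    obtain ⟨u, hu⟩ := h.nb_exists hv hiv
    have hiu := nb_not_mem h hv hu
    have hcu : inner ℝ (c v) u < t v := hother ⟨u, hu.1⟩ v (fun h1 => hu.2.1 (by rw [← h1]))
    have hcv : t v < inner ℝ (c v) (v : E d) := hcut v
    obtain ⟨lam, hlam⟩ : ∃ lam : ℝ, lam = (inner ℝ (c v) (v : E d) - t v) /
      (inner ℝ (c v) (v : E d) - inner ℝ (c v) u) := ⟨_, rfl⟩
    have hden : 0 < inner ℝ (c v) (v : E d) - inner ℝ (c v) u := by linarith
    have hl0 : 0 < lam := by rw [hlam]; exact div_pos (by linarith) hden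
    have hl1 : lam < 1 := by rw [hlam, div_lt_one hden]; linarith
    have hlm : lam * (inner ℝ (c v) (v : E d) - inner ℝ (c v) u) = inner ℝ (c v) (v : E d) - t v := by
      rw [hlam, div_mul_cancel₀ _ hden.ne']
    obtain ⟨z, hz⟩ : ∃ z : E d, z = (1 - lam) • (v : E d) + lam • u := ⟨_, rfl⟩
    have hval : ∀ w : E d, inner ℝ w z = (1 - lam) * inner ℝ w (v : E d) + lam * inner ℝ w u := by
      intro w
      rw [hz, inner_add_right, inner_smul_right, inner_smul_right]
    have hcz : inner ℝ (c v) z = t v := by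
      rw [hval]
      linarith
    have hvC : (v : E d) ∈ convexHull ℝ (S : Set (E d)) := subset_convexHull ℝ _ hv
    have huC : u ∈ convexHull ℝ (S : Set (E d)) := subset_convexHull ℝ _ hu.1
    have hzo : z ∈ openSegment ℝ (v : E d) u := ⟨1 - lam, lam, by linarith, hl0, by ring, hz.symm⟩
    have hzs : z ∈ segment ℝ (v : E d) u := openSegment_subset_segment ℝ _ _ hzo
    have hzC : z ∈ convexHull ℝ (S : Set (E d)) := (convex_convexHull ℝ _).segment_subset hvC huC hzs
    have hzn : ∀ w : S, w ≠ v → inner ℝ (c w) z < t w := fun w hw => hdisj z hzC v w hw.symm hcz.ge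
    have hTz : T a b z = T a b (v : E d) \ {i} := by
      ext p
      constructor
      · intro hp
        have hp' : inner ℝ (a p) z = b p := hp
        rw [hval] at hp'
        have h1 := hle v hv p
        have h2 := hle u hu.1 p
        have h3 : inner ℝ (a p) (v : E d) = b p := by
          by_contra h4
          have h5 : inner ℝ (a p) (v : E d) < b p := lt_of_le_of_ne h1 h4
          nlinarith
        have h6 : inner ℝ (a p) u = b p := by
          by_contra h4
          have h5 : inner ℝ (a p) u < b p := lt_of_le_of_ne h2 h4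
          nlinarith
        refine ⟨h3, ?_⟩
        rintro rfl
        exact hiu h6
      · rintro ⟨hp, hpi⟩
        have h3 : inner ℝ (a p) (v : E d) = b p := hp
        have h6 : inner ℝ (a p) u = b p := hu.2.2.2 ⟨hp, hpi⟩
        show inner ℝ (a p) z = b p
        rw [hval, h3, h6]
        ring
    refine ⟨z, hmemS' z ?_, T_dart hcz hzn hTz⟩
    rw [mem_extremePoints]
    refine ⟨?_, ?_⟩
    · rw [hhull]
      refine ⟨hzC, fun w => ?_⟩
      by_cases hwv : w = v
      · rw [hwv]
        exact hcz.le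
      · exact (hzn w hwv).le
    · intro x1 h1 x2 h2 h12
      have hext : IsExtreme ℝ (convexHull ℝ (S : Set (E d))) (segment ℝ (v : E d) u) :=
        (h.exposed hv hu).isExtreme
      have g1 := hext.2 (hsub h1) (hsub h2) hzs h12
      have g2 := hext.2 (hsub h2) (hsub h1) hzs (by rwa [openSegment_symm])
      rw [hhull] at h1 h2
      obtain ⟨α, β, hα0, hβ0, hαβ, he⟩ := h12
      have e1 : α * inner ℝ (c v) x1 + β * inner ℝ (c v) x2 = t v := by
        rw [← hcz, ← he, inner_add_right, inner_smul_right, inner_smul_right]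
      have k1 : inner ℝ (c v) x1 ≤ t v := h1.2 v
      have k2 : inner ℝ (c v) x2 ≤ t v := h2.2 v
      have e2 : α * t v + β * t v = t v := by rw [← add_mul, hαβ, one_mul]
      have m1 : inner ℝ (c v) x1 = t v := by
        by_contra h4
        have h5 : inner ℝ (c v) x1 < t v := lt_of_le_of_ne k1 h4
        have h6 := mul_lt_mul_of_pos_left h5 hα0
        have h7 := mul_le_mul_of_nonneg_left k2 hβ0.le
        linarith
      have m2 : inner ℝ (c v) x2 = t v := by
        by_contra h4
        have h5 : inner ℝ (c v) x2 < t v := lt_of_le_of_ne k2 h4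
        have h6 := mul_lt_mul_of_pos_left h5 hβ0
        have h7 := mul_le_mul_of_nonneg_left k1 hα0.le
        linarith
      have huniq : ∀ y ∈ segment ℝ (v : E d) u, inner ℝ (c v) y = t v → y = z := by
        rintro y ⟨s, r, hs, hr, hsr, rfl⟩ hy
        rw [inner_add_right, inner_smul_right, inner_smul_right] at hy
        have hs' : s = 1 - r := by linarith
        subst hs'
        have hr' : r = lam := by
          have : (r - lam) * (inner ℝ (c v) (v : E d) - inner ℝ (c v) u) = 0 := by linarith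
          rcases mul_eq_zero.1 this with h6 | h6
          · linarith
          · exact absurd h6 hden.ne'
        rw [hr', hz]
      exact ⟨huniq x1 g1 m1, huniq x2 g2 m2⟩
  -- all vertices
  have hγ : ∀ y ∈ S', ∃ v : S, ∃ i ∈ T a b (v : E d),
      T (ya a c) (yb S b t) y = insert (Sum.inr v) (Sum.inl '' (T a b (v : E d) \ {i})) := by
    intro y hy
    have hyC' : y ∈ convexHull ℝ (S' : Set (E d)) := subset_convexHull ℝ _ hy
    have hyC := hsub hyC'
    have hyle : ∀ q, inner ℝ (a q) y ≤ b q := by
      have h1 := hyC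
      rw [h.hull] at h1
      exact h1
    have hyt : ∀ v : S, inner ℝ (c v) y ≤ t v := by
      rw [hhull] at hyC'
      exact hyC'.2
    have hinj : ∀ u : E d, (∀ o ∈ T (ya a c) (yb S b t) y, inner ℝ (ya a c o) u = 0) → u = 0 := fun u hu =>
      inj hull' (hvert y hy) hu
    have hyS : y ∉ S := fun h1 => absurd (hyt ⟨y, h1⟩) (not_le.2 (hcut ⟨y, h1⟩))
    obtain ⟨v, heq⟩ : ∃ v : S, inner ℝ (c v) y = t v := by
      by_contra hcon
      push Not at hcon
      refine hyS (h.mem_of hyle fun u hu => hinj u ?_)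
      intro o ho
      rcases o with q | v
      · exact hu q ho
      · exact absurd (inr_T.1 ho) (hcon v)
    have hyn : ∀ w : S, w ≠ v → inner ℝ (c w) y < t w := fun w hw => hdisj y hyC v w hw.symm heq.ge
    -- a direction of the edge
    obtain ⟨u, hu, hu0⟩ : ∃ u : E d, (∀ q ∈ T a b y, inner ℝ (a q) u = 0) ∧ u ≠ 0 := by
      by_contra hcon
      push Not at hcon
      exact hyS (h.mem_of hyle hcon)
    have hann : ∀ u' : E d, (∀ q ∈ T a b y, inner ℝ (a q) u' = 0) → inner ℝ (c v) u' = 0 → u' = 0 := by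
      intro u' h1 h2
      refine hinj u' ?_
      intro o ho
      rcases o with q | w
      · exact h1 q ho
      · by_cases hwv : w = v
        · subst hwv
          exact h2
        · exact absurd (inr_T.1 ho) (hyn w hwv).ne
    have hcu : inner ℝ (c v) u ≠ 0 := fun h0 => hu0 (hann u hu h0)
    have hline : ∀ u' : E d, (∀ q ∈ T a b y, inner ℝ (a q) u' = 0) → ∃ r : ℝ, u' = r • u := by
      intro u' hu'
      refine ⟨inner ℝ (c v) u' / inner ℝ (c v) u, ?_⟩
      have h1 : u' - (inner ℝ (c v) u' / inner ℝ (c v) u) • u = 0 := by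
        refine hann _ ?_ ?_
        · intro q hq
          rw [inner_sub_right, inner_smul_right, hu q hq, hu' q hq, mul_zero, sub_zero]
        · rw [inner_sub_right, inner_smul_right, div_mul_cancel₀ _ hcu, sub_self]
      exact sub_eq_zero.1 h1
    have hF := face h y hyC
    have hyv : T a b y ⊆ T a b (v : E d) := by
      have hex : ∃ v' ∈ S, T a b y ⊆ T a b v' ∧ t v ≤ inner ℝ (c v) v' := by
        by_contra hcon
        push Not at hcon
        have h1 : convexHull ℝ {v' : E d | v' ∈ S ∧ T a b y ⊆ T a b v'} ⊆ {x | inner ℝ (c v) x < t v} := by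
          refine convexHull_min ?_ ?_
          · rintro v' ⟨hv1, hv2⟩
            exact hcon v' hv1 hv2
          · exact convex_halfSpace_lt (innerSL ℝ (c v)).isLinear (t v)
        exact absurd (h1 hF) (by
          show ¬ inner ℝ (c v) y < t v
          rw [heq]
          exact lt_irrefl _)
      obtain ⟨v', hv'S, h1, h2⟩ := hex
      have h3 : v = ⟨v', hv'S⟩ := by
        by_contra h4
        exact absurd (hdisj v' (subset_convexHull ℝ _ hv'S) v ⟨v', hv'S⟩ h4 h2)
          (not_lt.2 (hcut ⟨v', hv'S⟩).le)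
      rw [h3]
      exact h1
    obtain ⟨g, hg1, hg2⟩ := h.dirs v.2
    -- `T v \ T y` has at most one element
    have hone : ∀ i ∈ T a b (v : E d), i ∉ T a b y → ∀ j ∈ T a b (v : E d), j ∉ T a b y → i = j := by
      intro i hi hiy j hj hjy
      by_contra hij
      have hgi : ∀ q ∈ T a b y, inner ℝ (a q) (g i) = 0 := by
        intro q hq
        rw [hg1 q (hyv hq) i hi, if_neg]
        rintro rfl
        exact hiy hq
      have hgj : ∀ q ∈ T a b y, inner ℝ (a q) (g j) = 0 := by
        intro q hq
        rw [hg1 q (hyv hq) j hj, if_neg]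
        rintro rfl
        exact hjy hq
      obtain ⟨r, hr⟩ := hline _ hgi
      obtain ⟨r', hr'⟩ := hline _ hgj
      have e1 : inner ℝ (a i) (g i) = (-1 : ℝ) := by rw [hg1 i hi i hi, if_pos rfl]
      have e2 : inner ℝ (a i) (g j) = (0 : ℝ) := by rw [hg1 i hi j hj, if_neg hij]
      have e3 : inner ℝ (a j) (g j) = (-1 : ℝ) := by rw [hg1 j hj j hj, if_pos rfl]
      rw [hr, inner_smul_right] at e1
      rw [hr', inner_smul_right] at e2 e3
      have h1 : inner ℝ (a i) u ≠ 0 := by
        intro h2
        rw [h2, mul_zero] at e1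
        norm_num at e1
      have h2 : r' = 0 := (mul_eq_zero.1 e2).resolve_right h1
      rw [h2, zero_mul] at e3
      norm_num at e3
    obtain ⟨i, hiv, hiy⟩ : ∃ i ∈ T a b (v : E d), i ∉ T a b y := by
      by_contra hcon
      push Not at hcon
      refine hu0 ?_
      rw [hg2 u]
      refine Finset.sum_eq_zero fun q hq => ?_
      have hq' : q ∈ T a b (v : E d) := (Set.Finite.mem_toFinset _).mp hq
      rw [hu q (hcon q hq'), neg_zero, zero_smul]
    have hTy : T a b y = T a b (v : E d) \ {i} := by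
      ext p
      constructor
      · intro hp
        refine ⟨hyv hp, ?_⟩
        rintro rfl
        exact hiy hp
      · rintro ⟨hp, hpi⟩
        by_contra hpy
        exact hpi (hone p hp hpy i hiv hiy)
    exact ⟨v, i, hiv, T_dart heq hyn hTy⟩
  refine ⟨⟨hull', hvert, hne, ?_⟩, fun D => ⟨?_, ?_⟩⟩
  · intro y hy
    obtain ⟨v, i, hi, h2⟩ := hγ y hy
    rw [h2, Set.ncard_insert_of_notMem (by rintro ⟨p, -, hp⟩; cases hp) (Set.toFinite _),
      Set.ncard_image_of_injective _ Sum.inl_injective]
    have h3 := Set.ncard_diff_singleton_add_one hi (Set.toFinite (T a b (v : E d)))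
    rw [h.tight v v.2] at h3
    exact h3
  · rintro ⟨y, hy, rfl⟩
    exact hγ y hy
  · rintro ⟨v, i, hi, rfl⟩
    exact hβ v i hi

end Pool.Agent.LibTR40
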