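import Mathlib
import Pool.Agent.LibHP88.A3
import Pool.Agent.LibHP88.A4

/-! # Clusters of even size joined by an involution -/

set_option autoImplicit false

noncomputable section

open scoped Classical

namespace Pool.Agent.LibTR40

open Pool.Agent.LibHP88

theorem exists_inv (F : Type) [Finite F] (h : Even (Nat.card F)) :
    ∃ ρ : F → F, (∀ x, ρ x ≠ x) ∧ ∀ x, ρ (ρ x) = x := by
  haveI := Fintype.ofFinite F
  obtain ⟨m, hm⟩ := h
  rw [Nat.card_eq_fintype_card] at hm
  have e : F ≃ Fin m × Bool := Fintype.equivOfCardEq (by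
    rw [hm, Fintype.card_prod, Fintype.card_fin, Fintype.card_bool]
    ring)
  refine ⟨fun x => e.symm ((e x).1, !(e x).2), fun x hx => ?_, fun x => ?_⟩
  · have h1 := congrArg e hx
    rw [Equiv.apply_symm_apply] at h1
    have h2 := congrArg Prod.snd h1
    simp at h2
  · simp

theorem exists_rho {X V : Type} [Finite X] (cl : X → V) (hev : ∀ v, Even ({x | cl x = v}.ncard)) :
    ∃ ρ : X → X, (∀ x, ρ x ≠ x) ∧ (∀ x, ρ (ρ x) = x) ∧ ∀ x, cl (ρ x) = cl x := by
  have h1 : ∀ v, ∃ ρ : {x // cl x = v} → {x // cl x = v}, (∀ x, ρ x ≠ x) ∧ ∀ x, ρ (ρ x) = x := fun v =>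
    exists_inv _ (hev v)
  choose r hr1 hr2 using h1
  have key : ∀ v (y : {x // cl x = v}), (r (cl y.1) ⟨y.1, rfl⟩ : X) = (r v y : X) := by
    rintro v ⟨y, rfl⟩
    rfl
  refine ⟨fun x => r (cl x) ⟨x, rfl⟩, fun x hx => ?_, fun x => ?_, fun x => (r (cl x) ⟨x, rfl⟩).2⟩
  · exact hr1 (cl x) ⟨x, rfl⟩ (Subtype.ext hx)
  · have h2 := key (cl x) (r (cl x) ⟨x, rfl⟩)
    show (r (cl (r (cl x) ⟨x, rfl⟩).1) ⟨(r (cl x) ⟨x, rfl⟩).1, rfl⟩ : X) = x
    rw [h2, hr2]

theorem core {X V : Type} [Fintype X] [DecidableEq X] [Nonempty X] (cl : X → V) (τ : X → X)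
    (hτ : ∀ x, τ (τ x) = x) (hcl : ∀ x, cl (τ x) ≠ cl x) (hev : ∀ v, Even ({x | cl x = v}.ncard))
    (hconn : ∀ x y, Relation.ReflTransGen (fun x y => cl x = cl y ∨ y = τ x) x y)
    (Γ : SimpleGraph X) (hin : ∀ x y, cl x = cl y → x ≠ y → Γ.Adj x y) (hcr : ∀ x, Γ.Adj x (τ x)) :
    Γ.IsHamiltonian := by
  let P : Set (SimpleGraph X) := {R | Two R ∧ (∀ x, R.Adj x (τ x)) ∧ ∀ x y, R.Adj x y → cl x = cl y ∨ y = τ x}
  have hPfin : P.Finite := by
    haveI : Finite (SimpleGraph X) := by
      refine Finite.of_injective (fun R : SimpleGraph X => R.Adj) ?_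
      intro R R' hRR
      exact SimpleGraph.ext hRR
    exact Set.toFinite P
  have hPne : P.Nonempty := by
    obtain ⟨ρ, hρ1, hρ2, hρ3⟩ := exists_rho cl hev
    have hne : ∀ x, τ x ≠ ρ x := fun x h => hcl x (by rw [h, hρ3])
    let R0 : SimpleGraph X :=
      { Adj := fun x y => y = τ x ∨ y = ρ x
        symm := ⟨fun x y h => by
          rcases h with h | h
          · left; rw [h, hτ]
          · right; rw [h, hρ2]⟩
        loopless := ⟨fun x h => by
          rcases h with h | h
          · exact hcl x (by rw [← h])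
          · exact hρ1 x h.symm⟩ }
    have hR0 : ∀ x y, R0.Adj x y ↔ y = τ x ∨ y = ρ x := fun x y => Iff.rfl
    refine ⟨R0, fun x => ?_, fun x => (hR0 _ _).2 (Or.inl rfl), fun x y hxy => ?_⟩
    · have e : R0.neighborSet x = {τ x, ρ x} := by
        ext y
        rw [SimpleGraph.mem_neighborSet, hR0]
        rfl
      rw [e, Set.ncard_pair (hne x)]
    · rcases (hR0 _ _).1 hxy with h | h
      · exact Or.inr h
      · left
        rw [h, hρ3]
  obtain ⟨R, hR, hmax⟩ := Set.exists_max_image P (fun R => {p : X × X | R.Reachable p.1 p.2}.ncard) hPfin hPne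
  obtain ⟨hR1, hR2, hR3⟩ := hR
  have hRΓ : R ≤ Γ := by
    intro x y hxy
    rcases hR3 x y hxy with h | h
    · exact hin x y h hxy.ne
    · rw [h]
      exact hcr x
  -- the inner neighbour
  have hinner : ∀ x, ∃ x', R.Adj x x' ∧ cl x = cl x' := by
    intro x
    have h1 : τ x ∈ R.neighborSet x := hR2 x
    have h2 : ∃ x' ∈ R.neighborSet x, x' ≠ τ x := by
      by_contra hcon
      push Not at hcon
      have h3 : R.neighborSet x ⊆ {τ x} := fun z hz => hcon z hz
      have h4 := Set.ncard_le_ncard h3 (Set.toFinite _)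
      rw [hR1 x, Set.ncard_singleton] at h4
      omega
    obtain ⟨x', hx', hne⟩ := h2
    rcases hR3 x x' hx' with h | h
    · exact ⟨x', hx', h⟩
    · exact absurd h hne
  -- connected inside the clusters
  have hclu : ∀ x y, cl x = cl y → R.Reachable x y := by
    intro x y hxy
    by_contra hn
    obtain ⟨x', hx1, hx2⟩ := hinner x
    obtain ⟨y', hy1, hy2⟩ := hinner y
    have hxy' : x ≠ y := by
      rintro rfl
      exact hn (SimpleGraph.Reachable.refl x)
    have hlink : link R (Set.univ \ {()}) (fun _ : Unit => x) (fun _ : Unit => y) = R := by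
      ext u w
      rw [A3_link_adj]
      constructor
      · rintro (h | ⟨⟨i, hi, -⟩, -⟩)
        · exact h
        · exact absurd rfl hi.2
      · exact Or.inl
    obtain ⟨g1, g2⟩ := plumb_main hR1 (Set.univ : Set Unit) (fun _ => x) (fun _ => x') (fun _ => y) (fun _ => y')
      (fun _ _ => hx1) (fun _ _ => hy1) (fun i _ j _ hij => absurd (Subsingleton.elim i j) hij)
      (by
        rintro ⟨⟩ _
        rw [hlink]
        exact hn)
    have hmem : plumb R (Set.univ : Set Unit) (fun _ => x) (fun _ => x') (fun _ => y) (fun _ => y') ∈ P := by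
      refine ⟨g1, fun z => ?_, fun u w huw => ?_⟩
      · rw [A3_plumb_adj]
        refine ⟨Or.inl ⟨hR2 z, ?_⟩, (hR2 z).ne⟩
        rintro ⟨_, _, h | h⟩
        · rcases Sym2.eq_iff.1 h with ⟨e1, e2⟩ | ⟨e1, e2⟩
          · exact hcl z (by rw [e2, e1, hx2])
          · exact hcl z (by rw [e2, e1, hx2])
        · rcases Sym2.eq_iff.1 h with ⟨e1, e2⟩ | ⟨e1, e2⟩
          · exact hcl z (by rw [e2, e1, hy2])
          · exact hcl z (by rw [e2, e1, hy2])
      · rw [A3_plumb_adj] at huw
        obtain ⟨h | ⟨_, _, h | h⟩, -⟩ := huw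
        · exact hR3 u w h.1
        · left
          rcases Sym2.eq_iff.1 h with ⟨e1, e2⟩ | ⟨e1, e2⟩
          · rw [e1, e2, hxy]
          · rw [e1, e2, hxy]
        · left
          rcases Sym2.eq_iff.1 h with ⟨e1, e2⟩ | ⟨e1, e2⟩
          · rw [e1, e2, ← hx2, ← hy2, hxy]
          · rw [e1, e2, ← hx2, ← hy2, hxy]
    have hle := hmax _ hmem
    have hlt : {p : X × X | R.Reachable p.1 p.2}.ncard <
        {p : X × X | (plumb R (Set.univ : Set Unit) (fun _ => x) (fun _ => x') (fun _ => y)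
          (fun _ => y')).Reachable p.1 p.2}.ncard := by
      refine Set.ncard_lt_ncard ?_ (Set.toFinite _)
      rw [Set.ssubset_iff_exists]
      refine ⟨fun p hp => ?_, (x, y), ?_, hn⟩
      · show (plumb R _ _ _ _ _).Reachable p.1 p.2
        rw [g2]
        exact A3_reach_of (fun u w huw => (A3_link_adj.2 (Or.inl huw)).reachable) hp
      · show (plumb R _ _ _ _ _).Reachable x y
        rw [g2]
        exact (A3_link_adj.2 (Or.inr ⟨⟨(), Set.mem_univ _, rfl⟩, hxy'⟩)).reachable
    exact absurd hle (not_le.2 hlt)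
  have hall : ∀ x y, R.Reachable x y := by
    intro x y
    have h1 := hconn x y
    induction h1 with
    | refl => exact SimpleGraph.Reachable.refl x
    | tail _ h2 ih =>
      rcases h2 with h2 | h2
      · exact ih.trans (hclu _ _ h2)
      · rw [h2]
        exact ih.trans (hR2 _).reachable
  exact ham_of_two hRΓ hR1 (SimpleGraph.Connected.mk hall)

end Pool.Agent.LibTR40
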