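import Pool.Agent.LibTR40.K
import Pool.Agent.LibTR40.B

/-! # Clusters of any size, an even number of elements of each joined by an involution -/

set_option autoImplicit false

noncomputable section

open scoped Classical

namespace Pool.Agent.LibTR40

/-- the graph of the clusters and the cross edges on `A` -/
def G0 {X V : Type} (cl : X → V) (A : Set X) (τ : X → X) (x y : X) : Prop :=
  (cl x = cl y ∧ x ≠ y) ∨ (x ∈ A ∧ y = τ x)

theorem core2 {X V : Type} [Fintype X] [DecidableEq X] [Nonempty X] (cl : X → V) (A : Set X) (τ : X → X)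
    (hτA : ∀ x ∈ A, τ x ∈ A) (hτ : ∀ x ∈ A, τ (τ x) = x) (hcl : ∀ x ∈ A, cl (τ x) ≠ cl x)
    (hA : ∀ x, ∃ y ∈ A, cl y = cl x) (hev : ∀ v, Even ({x | x ∈ A ∧ cl x = v}.ncard))
    (hconn : ∀ x ∈ A, ∀ y ∈ A, Relation.ReflTransGen (fun x y => y ∈ A ∧ (cl x = cl y ∨ y = τ x)) x y)
    (Γ : SimpleGraph X) (hin : ∀ x y, cl x = cl y → x ≠ y → Γ.Adj x y) (hcr : ∀ x ∈ A, Γ.Adj x (τ x)) :
    Γ.IsHamiltonian := by
  have hsymm : ∀ x y, G0 cl A τ x y → G0 cl A τ y x := by
    rintro x y (⟨h1, h2⟩ | ⟨h1, h2⟩)
    · exact Or.inl ⟨h1.symm, h2.symm⟩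
    · right
      rw [h2]
      exact ⟨hτA x h1, (hτ x h1).symm⟩
  have hirr : ∀ x, ¬ G0 cl A τ x x := by
    rintro x (⟨_, h2⟩ | ⟨h1, h2⟩)
    · exact h2 rfl
    · exact hcl x h1 (by rw [← h2])
  let ΓA : SimpleGraph A :=
    { Adj := fun x y => G0 cl A τ (x : X) (y : X)
      symm := ⟨fun x y h => hsymm _ _ h⟩
      loopless := ⟨fun x h => hirr _ h⟩ }
  have hAne : Nonempty A := by
    obtain ⟨x⟩ := ‹Nonempty X›
    obtain ⟨y, hy, _⟩ := hA x
    exact ⟨⟨y, hy⟩⟩
  have hev' : ∀ v, Even ({x : A | cl (x : X) = v}.ncard) := by
    intro v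
    have h1 := hev v
    have e : {x | x ∈ A ∧ cl x = v} = (fun x : A => (x : X)) '' {x : A | cl (x : X) = v} := by
      ext x
      constructor
      · rintro ⟨h2, h3⟩
        exact ⟨⟨x, h2⟩, h3, rfl⟩
      · rintro ⟨y, h2, rfl⟩
        exact ⟨y.2, h2⟩
    rw [e, Set.ncard_image_of_injective _ Subtype.val_injective] at h1
    exact h1
  have hlift : ∀ x : A, ∀ y, Relation.ReflTransGen (fun x y => y ∈ A ∧ (cl x = cl y ∨ y = τ x)) (x : X) y →
      ∃ hy : y ∈ A, Relation.ReflTransGen (fun x y : A => cl (x : X) = cl (y : X) ∨
        y = ⟨τ (x : X), hτA x x.2⟩) x ⟨y, hy⟩ := by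
    intro x y h1
    induction h1 with
    | refl => exact ⟨x.2, Relation.ReflTransGen.refl⟩
    | tail _ h2 ih =>
      obtain ⟨hy, ih⟩ := ih
      obtain ⟨hz, h3⟩ := h2
      refine ⟨hz, ih.tail ?_⟩
      rcases h3 with h3 | h3
      · exact Or.inl h3
      · exact Or.inr (Subtype.ext h3)
  have hamA : ΓA.IsHamiltonian := core (fun x : A => cl (x : X)) (fun x : A => ⟨τ (x : X), hτA x x.2⟩)
    (fun x => Subtype.ext (hτ x x.2)) (fun x => hcl x x.2) hev'
    (fun x y => by
      obtain ⟨hy, h1⟩ := hlift x y (hconn x x.2 y y.2)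
      exact h1) ΓA
    (fun x y h1 h2 => Or.inl ⟨h1, fun h3 => h2 (Subtype.ext h3)⟩)
    (fun x => Or.inr ⟨x.2, rfl⟩)
  have hcard : Fintype.card A ≠ 1 := by
    intro hc
    rw [Fintype.card_eq_one_iff] at hc
    obtain ⟨z, hz⟩ := hc
    have h1 : (⟨τ (z : X), hτA z z.2⟩ : A) = z := hz _
    have h2 : τ (z : X) = z := congrArg Subtype.val h1
    exact hcl z z.2 (by rw [h2])
  obtain ⟨v0, M0, hnd0, hch0, hall0, hlen0⟩ := list_of_ham ΓA hamA hcard
  -- insertion of the other elements
  have key : ∀ W : Finset X, ∃ (v : X) (M : List X), (v :: M).Nodup ∧ (v :: (M ++ [v])).IsChain (G0 cl A τ) ∧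
      (∀ x, x ∈ v :: M ↔ x ∈ A ∨ x ∈ W) ∧ 3 ≤ (v :: M).length := by
    intro W
    induction W using Finset.induction_on with
    | empty =>
      refine ⟨v0, M0.map (fun x : A => (x : X)), ?_, ?_, ?_, ?_⟩
      · have h1 : ((v0 :: M0).map (fun x : A => (x : X))).Nodup := hnd0.map Subtype.val_injective
        exact h1
      · have h1 : ((v0 :: (M0 ++ [v0])).map (fun x : A => (x : X))).IsChain (G0 cl A τ) := by
          rw [List.isChain_map]
          exact hch0
        simpa using h1
      · intro x
        have h1 : x ∈ (v0 :: M0).map (fun x : A => (x : X)) ↔ x ∈ A := by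
          rw [List.mem_map]
          constructor
          · rintro ⟨y, _, rfl⟩
            exact y.2
          · intro hx
            exact ⟨⟨x, hx⟩, hall0 _, rfl⟩
        rw [List.map_cons] at h1
        rw [h1]
        simp
      · simpa using hlen0
    | insert z W hz ih =>
      obtain ⟨v, M, hnd, hch, hall, hlen⟩ := ih
      by_cases hzM : z ∈ v :: M
      · refine ⟨v, M, hnd, hch, fun x => ?_, hlen⟩
        rw [hall, Finset.mem_insert]
        constructor
        · rintro (h | h)
          · exact Or.inl h
          · exact Or.inr (Or.inr h)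
        · rintro (h | h | h)
          · exact Or.inl h
          · rw [h]
            exact (hall z).1 hzM
          · exact Or.inr h
      · -- start at an element `x` of the cluster of `z`
        obtain ⟨x, hxA, hxz⟩ := hA z
        have hCL : LibFF40.CL (G0 cl A τ) v M := ⟨hnd, hch⟩
        obtain ⟨N, ⟨hN1, hN2⟩, hN3⟩ := hCL.start ((hall x).2 (Or.inl hxA))
        have hzN : z ∉ x :: N := fun h => hzM ((hN3 z).1 h)
        have hlenN : 3 ≤ (x :: N).length := by
          have h5 : (v :: M).length ≤ (x :: N).length := (hnd.subperm fun y hy => (hN3 y).2 hy).length_le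
          omega
        have hxzne : x ≠ z := fun h => hzN (by rw [h]; simp)
        have hmem : ∀ N' : List X, (∀ y, y ∈ N' ↔ y = z ∨ y ∈ x :: N) → ∀ y, y ∈ N' ↔ y ∈ A ∨ y ∈ insert z W := by
          intro N' h1 y
          rw [h1, hN3, hall, Finset.mem_insert]
          tauto
        rcases N with _ | ⟨n1, _ | ⟨n2, N2⟩⟩
        · simp at hlenN
        · simp at hlenN
        rw [List.cons_append, List.isChain_cons_cons] at hN2
        by_cases hn1 : cl n1 = cl x
        · -- insert after `x`
          have hzn1 : z ≠ n1 := fun h => hzN (by rw [h]; simp)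
          refine ⟨x, z :: n1 :: n2 :: N2, ?_, ?_, hmem _ ?_, ?_⟩
          · rw [List.nodup_cons] at hN1 ⊢
            refine ⟨?_, ?_⟩
            · rw [List.mem_cons]
              rintro (h | h)
              · exact hxzne h
              · exact hN1.1 h
            · rw [List.nodup_cons]
              exact ⟨fun h => hzN (List.mem_cons_of_mem _ h), hN1.2⟩
          · rw [List.cons_append, List.isChain_cons_cons, List.cons_append, List.isChain_cons_cons]
            exact ⟨Or.inl ⟨hxz, hxzne⟩, Or.inl ⟨hxz.symm.trans hn1.symm, hzn1⟩, hN2.2⟩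
          · intro y
            simp only [List.mem_cons]
            tauto
          · simp
        · -- the last element is in the cluster of `x`
          have hτx : n1 = τ x := by
            rcases hN2.1 with h | h
            · exact absurd h.1.symm hn1
            · exact h.2
          obtain ⟨N0, l, hl⟩ : ∃ N0 l, n2 :: N2 = N0 ++ [l] :=
            ⟨_, _, (List.dropLast_append_getLast (List.cons_ne_nil n2 N2)).symm⟩
          have hchl : (n1 :: (N0 ++ l :: x :: [])).IsChain (G0 cl A τ) := by
            have e : n1 :: (N0 ++ l :: x :: []) = (n1 :: n2 :: N2) ++ [x] := by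
              rw [hl]
              simp
            rw [e]
            exact hN2.2
          have hchl' := hchl
          rw [← List.cons_append, List.isChain_append_cons_cons] at hchl'
          have hln1 : l ≠ n1 := by
            intro h
            have h1 := (List.nodup_cons.1 hN1).2
            rw [List.nodup_cons] at h1
            apply h1.1
            rw [hl, h]
            simp
          have hlx : l ≠ x := by
            intro h
            have h1 := (List.nodup_cons.1 hN1).1
            apply h1
            rw [hl, h]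
            simp
          have hll : cl l = cl x := by
            rcases hchl'.2.1 with h | ⟨h1, h2⟩
            · exact h.1
            · exfalso
              apply hln1
              rw [hτx, h2, hτ l h1]
          have hlz : l ≠ z := by
            intro h
            apply hzN
            rw [hl, ← h]
            simp
          refine ⟨x, (n1 :: n2 :: N2) ++ [z], ?_, ?_, hmem _ ?_, ?_⟩
          · rw [← List.cons_append, List.nodup_append]
            refine ⟨hN1, List.nodup_singleton _, ?_⟩
            intro y hy w hw hyw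
            rw [List.mem_singleton] at hw
            subst hyw
            rw [hw] at hy
            exact hzN hy
          · have e : x :: ((n1 :: n2 :: N2) ++ [z] ++ [x]) = (x :: n1 :: N0) ++ l :: z :: [x] := by
              rw [hl]
              simp
            rw [e, List.isChain_append_cons_cons]
            refine ⟨?_, Or.inl ⟨hll.trans hxz, hlz⟩, ?_⟩
            · rw [List.cons_append, List.cons_append, List.isChain_cons_cons]
              exact ⟨hN2.1, hchl'.1⟩
            · rw [List.isChain_cons_cons]
              exact ⟨Or.inl ⟨hxz.symm, hxzne.symm⟩, List.isChain_singleton _⟩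
          · intro y
            rw [← List.cons_append, List.mem_append, List.mem_singleton]
            tauto
          · simp
  obtain ⟨v, M, hnd, hch, hall, hlen⟩ := key Finset.univ
  refine LibFF40.ham_of_list Γ v M hnd (hch.imp fun x y hxy => ?_) (fun x => (hall x).2 (Or.inr (Finset.mem_univ x))) hlen
  rcases hxy with h | h
  · exact hin x y h.1 h.2
  · rw [h.2]
    exact hcr x h.1

end Pool.Agent.LibTR40
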