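import Pool.Agent.LibTR40.L
import Pool.Agent.LibTR40.G
import Pool.Agent.LibFL52.G3

/-! # The polytope with all vertices cut off -/

set_option autoImplicit false

noncomputable section

open scoped Classical

namespace Pool.Agent.LibTR40

open Pool.Agent.LibFL52

variable {d : ℕ} {Q : Type} [Fintype Q] {a : Q → E d} {b : Q → ℝ} {S : Finset (E d)}

theorem ham_all (hd1 : 1 ≤ d) (h : Po a b S) {a' : Q ⊕ S → E d} {b' : Q ⊕ S → ℝ} {S' : Finset (E d)}
    (h' : Po a' b' S')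
    (hnew : ∀ D : Set (Q ⊕ S), (∃ y ∈ S', T a' b' y = D) ↔
      ∃ v : S, ∃ i ∈ T a b (v : E d), D = insert (Sum.inr v) (Sum.inl '' (T a b (v : E d) \ {i})))
    (H : SimpleGraph S) (hH : H ≤ gr S) (hHc : H.Connected) (hHe : ∀ v, Even ((H.neighborSet v).ncard)) :
    (gr S').IsHamiltonian := by
  obtain ⟨D, hD⟩ : ∃ D : S → Q → Set (Q ⊕ S),
    D = fun (v : S) (i : Q) => insert (Sum.inr v) (Sum.inl '' (T a b (v : E d) \ {i})) := ⟨_, rfl⟩
  have D_inr : ∀ (v w : S) (i : Q), (Sum.inr w : Q ⊕ S) ∈ D v i ↔ w = v := by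
    intro v w i
    rw [hD]
    constructor
    · rintro (h1 | ⟨p, _, h1⟩)
      · cases h1
        rfl
      · cases h1
    · rintro rfl
      exact Set.mem_insert _ _
  have D_inl : ∀ (v : S) (i q : Q), (Sum.inl q : Q ⊕ S) ∈ D v i ↔ q ∈ T a b (v : E d) ∧ q ≠ i := by
    intro v i q
    rw [hD]
    constructor
    · rintro (h1 | ⟨p, hp, h1⟩)
      · cases h1
      · cases h1
        exact hp
    · intro h1
      exact Or.inr ⟨q, h1, rfl⟩
  have hy1 : ∀ y : S', ∃ v : S, ∃ i, i ∈ T a b (v : E d) ∧ T a' b' (y : E d) = D v i := by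
    intro y
    obtain ⟨v, i, hi, h1⟩ := (hnew (T a' b' (y : E d))).1 ⟨y, y.2, rfl⟩
    refine ⟨v, i, hi, ?_⟩
    rw [hD]
    exact h1
  choose vv ii hii hT using hy1
  have hy2 : ∀ (v : S) (i : Q), i ∈ T a b (v : E d) → ∃ y : S', T a' b' (y : E d) = D v i := by
    intro v i hi
    obtain ⟨y, hy, h1⟩ := (hnew (D v i)).2 ⟨v, i, hi, by rw [hD]⟩
    exact ⟨⟨y, hy⟩, h1⟩
  have hDinj : ∀ (v w : S) (i j : Q), i ∈ T a b (v : E d) → j ∈ T a b (w : E d) → D v i = D w j → v = w ∧ i = j := by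
    intro v w i j hi hj h1
    have h2 : v = w := by
      have h3 : (Sum.inr v : Q ⊕ S) ∈ D w j := by
        rw [← h1, D_inr]
      exact (D_inr w v j).1 h3
    subst h2
    refine ⟨rfl, ?_⟩
    by_contra hij
    have h3 : (Sum.inl i : Q ⊕ S) ∈ D v j := (D_inl v j i).2 ⟨hi, hij⟩
    rw [← h1, D_inl] at h3
    exact h3.2 rfl
  have hTinj : ∀ y z : S', T a' b' (y : E d) = T a' b' (z : E d) → y = z := by
    intro y z h1
    exact Subtype.ext (h'.tight_inj y.2 z.2 (le_of_eq h1))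
  have hyz : ∀ y z : S', vv y = vv z → ii y = ii z → y = z := by
    intro y z h1 h2
    refine hTinj y z ?_
    rw [hT y, hT z, h1, h2]
  have hY : ∀ (v : S) (i : Q), i ∈ T a b (v : E d) → ∃ y : S', vv y = v ∧ ii y = i := by
    intro v i hi
    obtain ⟨y, hy⟩ := hy2 v i hi
    refine ⟨y, ?_⟩
    exact hDinj _ _ _ _ (hii y) hi ((hT y).symm.trans hy)
  -- the cross edges
  have hex : ∀ y : S', ∃ z : S', vv z ≠ vv y ∧
      T a b (vv z : E d) \ {ii z} = T a b (vv y : E d) \ {ii y} := by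
    intro y
    obtain ⟨u, hu⟩ := h.nb_exists (vv y).2 (hii y)
    have hun := nb_not_mem h (vv y).2 hu
    have h1 : (T a b (vv y : E d) \ {ii y}).ncard + 1 = d := by
      rw [Set.ncard_sdiff_singleton_add_one (hii y) (Set.toFinite _)]
      exact h.tight _ (vv y).2
    obtain ⟨j, hj1, hj2⟩ : ∃ j ∈ T a b u, j ∉ T a b (vv y : E d) \ {ii y} := by
      by_contra hcon
      push Not at hcon
      have h2 := Set.ncard_le_ncard (show T a b u ⊆ T a b (vv y : E d) \ {ii y} from hcon) (Set.toFinite _)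
      rw [h.tight u hu.1] at h2
      omega
    have h3 : T a b (vv y : E d) \ {ii y} ⊆ T a b u \ {j} := by
      intro p hp
      refine ⟨hu.2.2.2 hp, ?_⟩
      rintro rfl
      exact hj2 hp
    have h4 : (T a b u \ {j}).ncard + 1 = d := by
      rw [Set.ncard_sdiff_singleton_add_one hj1 (Set.toFinite _)]
      exact h.tight u hu.1
    have h5 := Set.eq_of_subset_of_ncard_le h3 (by omega) (Set.toFinite _)
    obtain ⟨z, hz1, hz2⟩ := hY ⟨u, hu.1⟩ j hj1
    refine ⟨z, ?_, ?_⟩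
    · rw [hz1]
      intro h6
      exact hu.2.1 (congrArg Subtype.val h6)
    · rw [hz1, hz2]
      exact h5.symm
  have hnb : ∀ y z : S', vv z ≠ vv y → T a b (vv z : E d) \ {ii z} = T a b (vv y : E d) \ {ii y} →
      Nb a b S (ii y) (vv y : E d) (vv z : E d) := by
    intro y z h1 h2
    refine ⟨(vv z).2, fun h3 => h1 (Subtype.ext h3), hii y, ?_⟩
    rw [← h2]
    exact Set.sdiff_subset
  have huq : ∀ y z z' : S', vv z ≠ vv y → T a b (vv z : E d) \ {ii z} = T a b (vv y : E d) \ {ii y} →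
      vv z' ≠ vv y → T a b (vv z' : E d) \ {ii z'} = T a b (vv y : E d) \ {ii y} → z = z' := by
    intro y z z' h1 h2 h3 h4
    have h5 : vv z = vv z' := Subtype.ext (h.nb_unique (vv y).2 (hnb y z h1 h2) (hnb y z' h3 h4))
    refine hyz z z' h5 ?_
    by_contra h6
    have h7 : ii z ∈ T a b (vv z' : E d) \ {ii z'} := ⟨h5 ▸ hii z, h6⟩
    rw [h4, ← h2] at h7
    exact h7.2 rfl
  choose τ hτ1 hτ2 using hex
  have hττ : ∀ y, τ (τ y) = y := by
    intro y
    exact (huq (τ y) y (τ (τ y)) (hτ1 y).symm (hτ2 y).symm (hτ1 (τ y)) (hτ2 (τ y))).symm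
  have hstep : ∀ v c : S, H.Adj v c → ∃ z : S', vv z = v ∧ vv (τ z) = c := by
    intro v c hvc
    obtain ⟨i, hi⟩ := adj_nb h v c (hH hvc)
    obtain ⟨z, hz1, hz2⟩ := hY v i hi.2.2.1
    refine ⟨z, hz1, ?_⟩
    have h1 := hnb z (τ z) (hτ1 z) (hτ2 z)
    rw [hz1, hz2] at h1
    exact Subtype.ext (h.nb_unique v.2 h1 hi)
  -- `S'` is not empty
  haveI : Nonempty S' := by
    obtain ⟨y, hy⟩ := h'.ne
    exact ⟨⟨y, hy⟩⟩
  have hHn : ∀ v : S, ∃ c, H.Adj v c := by
    intro v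
    have h1 : (T a b (v : E d)).Nonempty := by
      apply Set.nonempty_of_ncard_ne_zero
      rw [h.tight v v.2]
      omega
    obtain ⟨q, hq⟩ := h1
    obtain ⟨u, hu⟩ := h.nb_exists v.2 hq
    have h2 := hHc.preconnected v ⟨u, hu.1⟩
    rw [SimpleGraph.reachable_iff_reflTransGen] at h2
    rcases h2.cases_head with h3 | ⟨c, h3, _⟩
    · exact absurd (congrArg Subtype.val h3).symm hu.2.1
    · exact ⟨c, h3⟩
  refine core2 vv {y | H.Adj (vv y) (vv (τ y))} τ ?_ (fun x _ => hττ x) (fun x _ => hτ1 x) ?_ ?_ ?_ (gr S') ?_ ?_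
  · intro x hx
    show H.Adj (vv (τ x)) (vv (τ (τ x)))
    rw [hττ]
    exact (show H.Adj (vv x) (vv (τ x)) from hx).symm
  · intro x
    obtain ⟨c, hc⟩ := hHn (vv x)
    obtain ⟨z, hz1, hz2⟩ := hstep _ _ hc
    refine ⟨z, ?_, hz1⟩
    show H.Adj (vv z) (vv (τ z))
    rw [hz1, hz2]
    exact hc
  · intro v
    have e : {x | x ∈ {y | H.Adj (vv y) (vv (τ y))} ∧ vv x = v}.ncard = (H.neighborSet v).ncard := by
      have e1 : (fun x => vv (τ x)) '' {x | x ∈ {y | H.Adj (vv y) (vv (τ y))} ∧ vv x = v} = H.neighborSet v := by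
        ext c
        constructor
        · rintro ⟨x, ⟨hx1, hx2⟩, rfl⟩
          rw [SimpleGraph.mem_neighborSet, ← hx2]
          exact hx1
        · intro hc
          obtain ⟨z, hz1, hz2⟩ := hstep v c hc
          refine ⟨z, ⟨?_, hz1⟩, hz2⟩
          show H.Adj (vv z) (vv (τ z))
          rw [hz1, hz2]
          exact hc
      rw [← e1, Set.ncard_image_of_injOn]
      rintro x ⟨_, hx2⟩ y ⟨_, hy2⟩ hxy
      have hxy' : vv (τ x) = vv (τ y) := hxy
      refine hyz x y (hx2.trans hy2.symm) ?_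
      by_contra hij
      have g1 := hnb x (τ x) (hτ1 x) (hτ2 x)
      have g2 := hnb y (τ y) (hτ1 y) (hτ2 y)
      rw [← hxy'] at g2
      rw [hy2] at g2
      rw [hx2] at g1
      have g3 : T a b (v : E d) ⊆ T a b (vv (τ x) : E d) := by
        intro p hp
        by_cases hpx : p = ii x
        · exact g2.2.2.2 ⟨hp, fun h6 => hij (hpx ▸ h6)⟩
        · exact g1.2.2.2 ⟨hp, hpx⟩
      exact g1.2.1 (h.tight_inj v.2 (vv (τ x)).2 g3).symm
    rw [e]
    exact hHe v
  · intro x hx y hy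
    have h2 := hHc.preconnected (vv x) (vv y)
    rw [SimpleGraph.reachable_iff_reflTransGen] at h2
    have key : ∀ w, Relation.ReflTransGen H.Adj (vv x) w → ∀ z, H.Adj (vv z) (vv (τ z)) → vv z = w →
        Relation.ReflTransGen (fun x y => y ∈ {y | H.Adj (vv y) (vv (τ y))} ∧ (vv x = vv y ∨ y = τ x)) x z := by
      intro w hw
      induction hw with
      | refl =>
        intro z hz hzx
        exact Relation.ReflTransGen.single ⟨hz, Or.inl hzx.symm⟩
      | tail _ h3 ih =>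
        intro z' hz' hzw
        obtain ⟨z, hz1, hz2⟩ := hstep _ _ h3
        have hz3 : H.Adj (vv z) (vv (τ z)) := by
          rw [hz1, hz2]
          exact h3
        have h4 := ih z hz3 hz1
        have h5 : H.Adj (vv (τ z)) (vv (τ (τ z))) := by
          rw [hττ]
          exact hz3.symm
        exact (h4.tail ⟨h5, Or.inr rfl⟩).tail ⟨hz', Or.inl (hz2.trans hzw.symm)⟩
    exact key _ h2 y hy rfl
  · intro x y hxy hne
    have hij : ii y ≠ ii x := fun h1 => hne (hyz x y hxy h1.symm)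
    refine h'.gr_adj x y (q := Sum.inl (ii y)) ⟨y.2, fun h1 => hne (Subtype.ext h1.symm), ?_, ?_⟩
    · rw [hT x, D_inl]
      exact ⟨hxy ▸ hii y, hij⟩
    · rintro (q | w) ⟨h1, h2⟩
      · rw [hT x, D_inl] at h1
        rw [hT y, D_inl, ← hxy]
        exact ⟨h1.1, fun h3 => h2 (by rw [h3]; rfl)⟩
      · rw [hT x, D_inr] at h1
        rw [hT y, D_inr, ← hxy]
        exact h1
  · intro x _
    refine h'.gr_adj x (τ x) (q := Sum.inr (vv x)) ⟨(τ x).2, fun h1 => ?_, ?_, ?_⟩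
    · exact hτ1 x (congrArg vv (Subtype.ext h1))
    · rw [hT x, D_inr]
    · rintro (q | w) ⟨h1, h2⟩
      · rw [hT x, D_inl] at h1
        rw [hT (τ x), D_inl]
        have h3 : q ∈ T a b (vv x : E d) \ {ii x} := h1
        rw [← hτ2 x] at h3
        exact h3
      · rw [hT x, D_inr] at h1
        exact absurd (by rw [h1]; rfl) h2

end Pool.Agent.LibTR40
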