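import Pool.Agent.LibTR40.M

/-! # The graph of a simple polytope is connected and regular; assembly -/

set_option autoImplicit false

noncomputable section

open scoped Classical

namespace Pool.Agent.LibTR40

open Pool.Agent.LibFL52

variable {d : ℕ} {Q : Type} [Fintype Q] {a : Q → E d} {b : Q → ℝ} {S : Finset (E d)}

theorem gr_deg (h : Po a b S) (v : S) : ((gr S).neighborSet v).ncard = d := by
  have h1 : ∀ i : T a b (v : E d), ∃ u : S, Nb a b S i (v : E d) (u : E d) := by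
    rintro ⟨i, hi⟩
    obtain ⟨u, hu⟩ := h.nb_exists v.2 hi
    exact ⟨⟨u, hu.1⟩, hu⟩
  choose N hN using h1
  have hinj : Function.Injective N := by
    intro i j hij
    by_contra hne
    have hne' : (i : Q) ≠ (j : Q) := fun h2 => hne (Subtype.ext h2)
    have g1 := hN i
    have g2 := hN j
    rw [← hij] at g2
    have g3 : T a b (v : E d) ⊆ T a b (N i : E d) := by
      intro p hp
      by_cases hpi : p = i
      · exact g2.2.2.2 ⟨hp, fun h6 => hne' (hpi ▸ h6)⟩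
      · exact g1.2.2.2 ⟨hp, hpi⟩
    exact g1.2.1 (h.tight_inj v.2 (N i).2 g3).symm
  have e : (gr S).neighborSet v = Set.range N := by
    ext u
    constructor
    · intro hu
      obtain ⟨i, hi⟩ := adj_nb h v u hu
      refine ⟨⟨i, hi.2.2.1⟩, ?_⟩
      exact Subtype.ext (h.nb_unique v.2 (hN ⟨i, hi.2.2.1⟩) hi)
    · rintro ⟨i, rfl⟩
      exact h.gr_adj v (N i) (hN i)
  rw [e, ← Set.image_univ, Set.ncard_image_of_injective _ hinj, Set.ncard_univ]
  exact h.tight v v.2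

theorem gr_conn (h : Po a b S) : (gr S).Connected := by
  have key : ∀ x : S, ∀ u : E d, Relation.ReflTransGen (fun u u' => u ∈ S ∧ u' ∈ S ∧ (∅ : Set Q) ⊆ T a b u ∧
      ∃ q, q ∉ (∅ : Set Q) ∧ Nb a b S q u u') (x : E d) u → ∀ hu : u ∈ S, (gr S).Reachable x ⟨u, hu⟩ := by
    intro x u h1
    induction h1 with
    | refl => exact fun _ => SimpleGraph.Reachable.refl _
    | tail _ h2 ih =>
      intro hu
      obtain ⟨g1, _, _, q, _, g2⟩ := h2
      exact (ih g1).trans (h.gr_adj ⟨_, g1⟩ ⟨_, hu⟩ g2).reachable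
  haveI : Nonempty S := by
    obtain ⟨x, hx⟩ := h.ne
    exact ⟨⟨x, hx⟩⟩
  exact SimpleGraph.Connected.mk fun x y =>
    key x y (h.path x.2 y.2 (Set.empty_subset _) (Set.empty_subset _)) y.2

theorem main_all (hd : 1 ≤ d) {S' : Finset (E d)} {c : S → E d} {t : S → ℝ}
    (hS : (interior (convexHull ℝ (S : Set (E d)))).Nonempty)
    (hvS : ∀ s ∈ S, s ∈ Set.extremePoints ℝ (convexHull ℝ (S : Set (E d))))
    (hS' : (interior (convexHull ℝ (S' : Set (E d)))).Nonempty)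
    (hvS' : ∀ s ∈ S', s ∈ Set.extremePoints ℝ (convexHull ℝ (S' : Set (E d))))
    (h1 : convexHull ℝ (S : Set (E d)) = {x | ∀ q, inner ℝ (a q) x ≤ b q})
    (h2 : ∀ s ∈ S, {q | inner ℝ (a q) s = b q}.ncard = d)
    (h3 : convexHull ℝ (S' : Set (E d)) =
      convexHull ℝ (S : Set (E d)) ∩ {x | ∀ v : S, inner ℝ (c v) x ≤ t v})
    (h4 : ∀ v : S, t v < inner ℝ (c v) (v : E d))
    (h5 : ∀ x ∈ convexHull ℝ (S : Set (E d)), ∀ v w : S, v ≠ w → t v ≤ inner ℝ (c v) x → inner ℝ (c w) x < t w)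
    (H : SimpleGraph S) (hH : H ≤ gr S) (hHc : H.Connected) (hHe : ∀ v, Even ((H.neighborSet v).ncard)) :
    (gr S').IsHamiltonian := by
  have hP : Po a b S := ⟨h1, hvS, ne_of_interior hS, h2⟩
  obtain ⟨g1, g2⟩ := cutall hP (ne_of_interior hS') hvS' h3 h4 h5
  exact ham_all hd hP g1 g2 H hH hHc hHe

theorem main_even (hd : 1 ≤ d) (hev : Even d) {S' : Finset (E d)} {c : S → E d} {t : S → ℝ}
    (hS : (interior (convexHull ℝ (S : Set (E d)))).Nonempty)
    (hvS : ∀ s ∈ S, s ∈ Set.extremePoints ℝ (convexHull ℝ (S : Set (E d))))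
    (hS' : (interior (convexHull ℝ (S' : Set (E d)))).Nonempty)
    (hvS' : ∀ s ∈ S', s ∈ Set.extremePoints ℝ (convexHull ℝ (S' : Set (E d))))
    (h1 : convexHull ℝ (S : Set (E d)) = {x | ∀ q, inner ℝ (a q) x ≤ b q})
    (h2 : ∀ s ∈ S, {q | inner ℝ (a q) s = b q}.ncard = d)
    (h3 : convexHull ℝ (S' : Set (E d)) =
      convexHull ℝ (S : Set (E d)) ∩ {x | ∀ v : S, inner ℝ (c v) x ≤ t v})
    (h4 : ∀ v : S, t v < inner ℝ (c v) (v : E d))
    (h5 : ∀ x ∈ convexHull ℝ (S : Set (E d)), ∀ v w : S, v ≠ w → t v ≤ inner ℝ (c v) x → inner ℝ (c w) x < t w) :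
    (gr S').IsHamiltonian := by
  have hP : Po a b S := ⟨h1, hvS, ne_of_interior hS, h2⟩
  exact main_all hd hS hvS hS' hvS' h1 h2 h3 h4 h5 (gr S) le_rfl (gr_conn hP)
    (fun v => by rw [gr_deg hP v]; exact hev)

end Pool.Agent.LibTR40
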